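import Pool.Agent.H99.HM.Main
import Pool.Agent.H99.HN.Targets

/-!
# Weak form of the equation with `H¹` test functions (module WF)
-/

namespace Pool.Agent.H76.HN

open MeasureTheory Set Filter Topology Real Pool.Agent.H99.HM Pool.Agent.H99.HN
open Pool.Agent.H49.HM
open scoped ContDiff

theorem int_mul {f g : E3 → ℂ} (hf : MemLp f 2 volume) (hg : MemLp g 2 volume) :
    Integrable (fun x => f x * g x) := hf.integrable_mul hg

/-- Convergence of products. -/
theorem mul_tendsto {f g : E3 → ℂ} (hf : MemLp f 2 volume) (hg : MemLp g 2 volume)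
    {fn : ℕ → E3 → ℂ} (hfn : ∀ n, MemLp (fn n) 2 volume)
    (h : Tendsto (fun n => ∫ x, ‖f x - fn n x‖ ^ 2) atTop (𝓝 0)) :
    Tendsto (fun n => ∫ x, fn n x * g x) atTop (𝓝 (∫ x, f x * g x)) := by
  set a : ℕ → ℝ := fun n => ∫ x, ‖f x - fn n x‖ ^ 2 with ha
  set A : ℝ := ∫ x, ‖g x‖ ^ 2 with hA
  have ha0 : ∀ n, 0 ≤ a n := fun n => integral_nonneg fun x => by positivity
  have hA0 : 0 ≤ A := integral_nonneg fun x => by positivity
  have hbound : ∀ n, ‖(∫ x, fn n x * g x) - ∫ x, f x * g x‖ ≤
      √(a n) + (√(a n) + 1 / ((n : ℝ) + 1)) * A := by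
    intro n
    set δ : ℝ := √(a n) + 1 / ((n : ℝ) + 1) with hδ
    have hδ0 : 0 < δ := by positivity
    have hd : MemLp (fun x => f x - fn n x) 2 volume := hf.sub (hfn n)
    rw [← integral_sub (int_mul (hfn n) hg) (int_mul hf hg)]
    calc ‖∫ x, (fn n x * g x - f x * g x)‖
        ≤ ∫ x, ‖fn n x * g x - f x * g x‖ := norm_integral_le_integral_norm _
      _ ≤ ∫ x, (1 / δ * ‖f x - fn n x‖ ^ 2 + δ * ‖g x‖ ^ 2) := by
          refine integral_mono ((int_mul (hfn n) hg).sub (int_mul hf hg)).norm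
            (((integrable_sq hd).const_mul _).add ((integrable_sq hg).const_mul _)) fun x => ?_
          show ‖fn n x * g x - f x * g x‖ ≤ 1 / δ * ‖f x - fn n x‖ ^ 2 + δ * ‖g x‖ ^ 2
          have e : fn n x * g x - f x * g x = -((f x - fn n x) * g x) := by ring
          rw [e, norm_neg, norm_mul]
          set p := ‖f x - fn n x‖
          set q := ‖g x‖
          have h1 : 1 / δ * p ^ 2 + δ * q ^ 2 - p * q =
              (1 / δ) * (p - δ * q / 2) ^ 2 + 3 / 4 * δ * q ^ 2 := by
            field_simp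
            ring
          have h2 : 0 ≤ (1 / δ) * (p - δ * q / 2) ^ 2 + 3 / 4 * δ * q ^ 2 := by positivity
          linarith
      _ = 1 / δ * a n + δ * A := by
          rw [integral_add ((integrable_sq hd).const_mul _) ((integrable_sq hg).const_mul _),
            integral_const_mul, integral_const_mul]
      _ ≤ √(a n) + δ * A := by
          have h8 : 1 / δ * a n ≤ √(a n) := by
            rw [one_div, inv_mul_le_iff₀ hδ0]
            have h9 : a n = √(a n) * √(a n) := (Real.mul_self_sqrt (ha0 n)).symm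
            calc a n = √(a n) * √(a n) := h9
              _ ≤ δ * √(a n) := by
                apply mul_le_mul_of_nonneg_right _ (Real.sqrt_nonneg _)
                have : 0 < 1 / ((n : ℝ) + 1) := by positivity
                linarith
          linarith
  have hsq : Tendsto (fun n => √(a n)) atTop (𝓝 0) := by
    have := (Real.continuous_sqrt.tendsto 0).comp h
    rw [Real.sqrt_zero] at this
    exact this
  have hlim : Tendsto (fun n : ℕ => √(a n) + (√(a n) + 1 / ((n : ℝ) + 1)) * A) atTop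
      (𝓝 (0 + (0 + 0) * A)) :=
    hsq.add ((hsq.add tendsto_one_div_add_atTop_nhds_zero_nat).mul_const A)
  rw [add_zero, zero_mul, add_zero] at hlim
  rw [tendsto_iff_norm_sub_tendsto_zero]
  exact squeeze_zero (fun n => norm_nonneg _) hbound hlim

theorem memLp_div {u : E3 → ℂ} (hu : MemLp u 2 volume)
    (h : Integrable (fun x => ‖u x‖ ^ 2 / ‖x - (0 : E3)‖ ^ 2)) :
    MemLp (fun x => u x / (‖x‖ : ℂ)) 2 volume := by
  have hm : AEStronglyMeasurable (fun x => u x / (‖x‖ : ℂ)) volume := by
    have h1 : Measurable (fun x : E3 => ((‖x‖ : ℝ) : ℂ)⁻¹) :=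
      (Complex.measurable_ofReal.comp measurable_norm).inv
    exact hu.1.mul h1.aestronglyMeasurable
  rw [memLp_two_iff_integrable_sq_norm hm]
  refine h.congr (Eventually.of_forall fun x => ?_)
  simp only [sub_zero]
  rw [norm_div, div_pow, Complex.norm_real, norm_norm]

theorem continuous_hartree {u : E3 → ℂ} {C : ℝ}
    (h : ∀ x x' : E3, |hartree u x - hartree u x'| ≤ C * ‖x - x'‖) : Continuous (hartree u) := by
  have h1 : LipschitzWith (Real.toNNReal |C|) (hartree u) := by
    apply LipschitzWith.of_dist_le_mul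
    intro x y
    rw [Real.dist_eq, dist_eq_norm, Real.coe_toNNReal _ (abs_nonneg C)]
    refine (h x y).trans ?_
    gcongr
    exact le_abs_self C
  exact h1.continuous

theorem memLp_hartree {u : E3 → ℂ} (hu : MemLp u 2 volume) {C D : ℝ}
    (h : ∀ x x' : E3, |hartree u x - hartree u x'| ≤ C * ‖x - x'‖)
    (h' : ∀ x, 0 ≤ hartree u x ∧ hartree u x ≤ D) :
    MemLp (fun x => (hartree u x : ℂ) * u x) 2 volume := by
  refine MemLp.of_le_mul (c := D) hu ?_ (Eventually.of_forall fun x => ?_)
  · exact ((Complex.continuous_ofReal.comp (continuous_hartree h)).aestronglyMeasurable).mul hu.1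
  · rw [norm_mul, Complex.norm_real, Real.norm_eq_abs, abs_of_nonneg (h' x).1]
    exact mul_le_mul_of_nonneg_right (h' x).2 (norm_nonneg _)

theorem memLp_real {φ : E3 → ℝ} (hφ : IsTest φ) : MemLp (fun x => (φ x : ℂ)) 2 volume := by
  apply Continuous.memLp_of_hasCompactSupport
  · exact Complex.continuous_ofReal.comp hφ.1.continuous
  · exact hφ.2.comp_left (g := fun y : ℝ => (y : ℂ)) (by simp)

theorem wf (hH : T_hardy) (hB : T_hb) : T_wf := by
  intro u lam G hsol hu v H hv
  obtain ⟨hb1, hb2, -, -⟩ := hB u G hu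
  have hU := memLp_div hu.memLp (hH u G hu 0).1
  have hW := memLp_hartree hu.memLp hb2 (fun x => (hb1 x).2)
  set U : E3 → ℂ := fun x => u x / (‖x‖ : ℂ) with hUdef
  set W : E3 → ℂ := fun x => (hartree u x : ℂ) * u x with hWdef
  have key : ∀ φ, IsTest φ → (∑ i, ∫ x, (pd i φ x : ℂ) * G i x) - (∫ x, (φ x : ℂ) * U x)
      + (∫ x, (φ x : ℂ) * W x) = (lam : ℂ) * ∫ x, (φ x : ℂ) * u x := by
    intro φ hφ
    have h1 := hsol.2 φ hφ
    have h2 : ∀ i, ∫ x, (-(pd i (pd i φ) x : ℝ) : ℂ) * u x = ∫ x, (pd i φ x : ℂ) * G i x := by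
      intro i
      have h3 := hu.weak i _ (contDiff_pd hφ i)
      have e1 : ∫ x, (-(pd i (pd i φ) x : ℝ) : ℂ) * u x = - ∫ x, u x * (pd i (pd i φ) x : ℂ) := by
        rw [← integral_neg]
        congr 1
        ext x
        ring
      rw [e1, h3, neg_neg]
      congr 1
      ext x
      ring
    have h4 : ∫ x, (-(lap φ x) : ℂ) * u x = ∑ i, ∫ x, (pd i φ x : ℂ) * G i x := by
      simp only [← h2]
      rw [← integral_finsetSum]
      · congr 1
        ext x
        simp only [lap, Complex.ofReal_sum]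
        rw [← Finset.sum_neg_distrib, Finset.sum_mul]
      · intro i _
        have h5 : MemLp (fun x => (-(pd i (pd i φ) x : ℝ) : ℂ)) 2 volume :=
          (memLp_real (contDiff_pd (contDiff_pd hφ i) i)).neg
        exact int_mul h5 hu.memLp
    have h6 : ∫ x, ((φ x / ‖x‖ : ℝ) : ℂ) * u x = ∫ x, (φ x : ℂ) * U x := by
      congr 1
      ext x
      simp only [hUdef, Complex.ofReal_div]
      ring
    have h7 : ∫ x, ((hartree u x * φ x : ℝ) : ℂ) * u x = ∫ x, (φ x : ℂ) * W x := by
      congr 1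
      ext x
      simp only [hWdef, Complex.ofReal_mul]
      ring
    rw [h4, h6, h7] at h1
    exact h1
  obtain ⟨φ, ψ, htest, hlim, hlimG⟩ := Pool.Agent.H99.HM.Main.dens v H hv
  set w : ℕ → E3 → ℂ := fun n x => (φ n x : ℂ) + (ψ n x : ℂ) * Complex.I with hw
  set Wn : ℕ → Fin 3 → E3 → ℂ := fun n i x => (pd i (φ n) x : ℂ) + (pd i (ψ n) x : ℂ) * Complex.I
    with hWn
  have hwm : ∀ n, MemLp (w n) 2 volume := fun n => memLp_test (htest n).1 (htest n).2
  have hWm : ∀ n i, MemLp (Wn n i) 2 volume := fun n i =>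
    memLp_test (contDiff_pd (htest n).1 i) (contDiff_pd (htest n).2 i)
  have hsplit : ∀ (f g : E3 → ℝ) (k : E3 → ℂ), IsTest f → IsTest g → MemLp k 2 volume →
      ∫ x, ((f x : ℂ) + (g x : ℂ) * Complex.I) * k x =
        (∫ x, (f x : ℂ) * k x) + Complex.I * ∫ x, (g x : ℂ) * k x := by
    intro f g k hf hg hk
    rw [← integral_const_mul, ← integral_add (int_mul (memLp_real hf) hk)
      ((int_mul (memLp_real hg) hk).const_mul _)]
    congr 1
    ext x
    ring
  have hn : ∀ n, (∑ i, ∫ x, Wn n i x * G i x) - (∫ x, w n x * U x)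
      + (∫ x, w n x * W x) = (lam : ℂ) * ∫ x, w n x * u x := by
    intro n
    have k1 := key _ (htest n).1
    have k2 := key _ (htest n).2
    simp only [hw, hWn]
    rw [hsplit _ _ _ (htest n).1 (htest n).2 hU, hsplit _ _ _ (htest n).1 (htest n).2 hW,
      hsplit _ _ _ (htest n).1 (htest n).2 hu.memLp]
    simp only [fun i => hsplit _ _ (G i) (contDiff_pd (htest n).1 i) (contDiff_pd (htest n).2 i)
      (hu.memLp_grad i)]
    rw [Finset.sum_add_distrib, ← Finset.mul_sum]
    linear_combination k1 + Complex.I * k2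
  have t1 : Tendsto (fun n => ∑ i, ∫ x, Wn n i x * G i x) atTop
      (𝓝 (∑ i, ∫ x, H i x * G i x)) :=
    tendsto_finsetSum _ fun i _ =>
      mul_tendsto (hv.memLp_grad i) (hu.memLp_grad i) (fun n => hWm n i) (hlimG i)
  have t2 := mul_tendsto hv.memLp hU hwm hlim
  have t3 := mul_tendsto hv.memLp hW hwm hlim
  have t4 := (mul_tendsto hv.memLp hu.memLp hwm hlim).const_mul (lam : ℂ)
  have t5 := (t1.sub t2).add t3
  have hfin := tendsto_nhds_unique (t5.congr hn) t4
  have i1 : ∀ i, Integrable (fun x => H i x * G i x) := fun i =>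
    int_mul (hv.memLp_grad i) (hu.memLp_grad i)
  have e2 : (fun x => v x * U x) = fun x => v x * u x / (‖x‖ : ℂ) := by
    ext x
    simp only [hUdef]
    ring
  have e3 : (fun x => v x * W x) = fun x => (hartree u x : ℂ) * (v x * u x) := by
    ext x
    simp only [hWdef]
    ring
  have i2 := int_mul hv.memLp hU
  have i3 := int_mul hv.memLp hW
  have i4 := int_mul hv.memLp hu.memLp
  rw [e2] at i2 hfin
  rw [e3] at i3 hfin
  refine ⟨integrable_finsetSum _ fun i _ => i1 i, i2, i3, i4, ?_⟩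
  rw [integral_finsetSum _ fun i _ => i1 i]
  exact hfin

end Pool.Agent.H76.HN
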