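import Pool.Agent.H99.HM.Main
import Pool.Agent.H99.HN.Targets
import Pool.Agent.H76.HN.WF

/-!
# Positivity of the multipoles (module MP)
-/

namespace Pool.Agent.H76.HN

open MeasureTheory Set Filter Topology Real Pool.Agent.H99.HM Pool.Agent.H99.HN
open Pool.Agent.H49.HM
open scoped ContDiff

theorem weak_test {φ η : E3 → ℝ} (hφ : IsTest φ) (hη : IsTest η) (i : Fin 3) :
    ∫ x, (φ x : ℂ) * (pd i η x : ℂ) = - ∫ x, (pd i φ x : ℂ) * (η x : ℂ) := by
  have hc : ∀ {f g : E3 → ℝ}, IsTest f → IsTest g → Integrable (fun x => f x * g x) := by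
    intro f g hf hg
    exact (hf.1.continuous.mul hg.1.continuous).integrable_of_hasCompactSupport hf.2.mul_right
  have h1 := integral_mul_fderiv_eq_neg_fderiv_mul_of_integrable (μ := (volume : Measure E3))
    (f := φ) (g := η) (v := EuclideanSpace.single i 1)
    (hc (contDiff_pd hφ i) hη) (hc hφ (contDiff_pd hη i)) (hc hφ hη)
    (fun x _ => hφ.1.differentiable (by simp) x) (fun x _ => hη.1.differentiable (by simp) x)
  have e1 : ∫ x, (φ x : ℂ) * (pd i η x : ℂ) = ((∫ x, φ x * pd i η x : ℝ) : ℂ) := by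
    rw [← integral_complex_ofReal]
    congr 1
    ext x
    push_cast
    rfl
  have e2 : ∫ x, (pd i φ x : ℂ) * (η x : ℂ) = ((∫ x, pd i φ x * η x : ℝ) : ℂ) := by
    rw [← integral_complex_ofReal]
    congr 1
    ext x
    push_cast
    rfl
  rw [e1, e2]
  have h2 : ∫ x, φ x * pd i η x = - ∫ x, pd i φ x * η x := h1
  rw [h2]
  push_cast
  rfl

theorem isH1_test {φ ψ : E3 → ℝ} (hφ : IsTest φ) (hψ : IsTest ψ) :
    IsH1 (fun x => (φ x : ℂ) + (ψ x : ℂ) * Complex.I)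
      (fun i x => (pd i φ x : ℂ) + (pd i ψ x : ℂ) * Complex.I) := by
  refine ⟨memLp_test hφ hψ, fun i => memLp_test (contDiff_pd hφ i) (contDiff_pd hψ i), ?_⟩
  intro i η hη
  have hc : ∀ {f g : E3 → ℝ}, IsTest f → IsTest g → Integrable (fun x => (f x : ℂ) * (g x : ℂ)) :=
    fun hf hg => int_mul (memLp_real hf) (memLp_real hg)
  have e1 : ∫ x, ((φ x : ℂ) + (ψ x : ℂ) * Complex.I) * (pd i η x : ℂ) =
      (∫ x, (φ x : ℂ) * (pd i η x : ℂ)) + Complex.I * ∫ x, (ψ x : ℂ) * (pd i η x : ℂ) := by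
    rw [← integral_const_mul, ← integral_add (hc hφ (contDiff_pd hη i))
      ((hc hψ (contDiff_pd hη i)).const_mul _)]
    congr 1
    ext x
    ring
  have e2 : ∫ x, ((pd i φ x : ℂ) + (pd i ψ x : ℂ) * Complex.I) * (η x : ℂ) =
      (∫ x, (pd i φ x : ℂ) * (η x : ℂ)) + Complex.I * ∫ x, (pd i ψ x : ℂ) * (η x : ℂ) := by
    rw [← integral_const_mul, ← integral_add (hc (contDiff_pd hφ i) hη)
      ((hc (contDiff_pd hψ i) hη).const_mul _)]
    congr 1
    ext x
    ring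
  rw [e1, e2, weak_test hφ hη, weak_test hψ hη]
  ring

theorem isH1_sub {u v : E3 → ℂ} {G H : Fin 3 → E3 → ℂ} (hu : IsH1 u G) (hv : IsH1 v H) :
    IsH1 (fun x => u x - v x) (fun i x => G i x - H i x) := by
  refine ⟨hu.memLp.sub hv.memLp, fun i => (hu.memLp_grad i).sub (hv.memLp_grad i), ?_⟩
  intro i η hη
  have h1 := hu.weak i η hη
  have h2 := hv.weak i η hη
  have hp := memLp_real (contDiff_pd hη i)
  have hq := memLp_real hη
  have e1 : ∫ x, (u x - v x) * (pd i η x : ℂ) =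
      (∫ x, u x * (pd i η x : ℂ)) - ∫ x, v x * (pd i η x : ℂ) := by
    rw [← integral_sub (int_mul hu.memLp hp) (int_mul hv.memLp hp)]
    congr 1
    ext x
    ring
  have e2 : ∫ x, (G i x - H i x) * (η x : ℂ) =
      (∫ x, G i x * (η x : ℂ)) - ∫ x, H i x * (η x : ℂ) := by
    rw [← integral_sub (int_mul (hu.memLp_grad i) hq) (int_mul (hv.memLp_grad i) hq)]
    congr 1
    ext x
    ring
  rw [e1, e2, h1, h2]
  ring

/-- `|‖w‖² - ‖u‖²| ≤ δ ‖u‖² + (1/δ + 1) ‖u - w‖²` -/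
theorem sq_diff_le (a b : ℂ) {δ : ℝ} (hδ : 0 < δ) :
    |‖b‖ ^ 2 - ‖a‖ ^ 2| ≤ δ * ‖a‖ ^ 2 + (1 / δ + 1) * ‖a - b‖ ^ 2 := by
  have h2 : |‖a‖ - ‖b‖| ≤ ‖a - b‖ := abs_norm_sub_norm_le _ _
  set p := ‖a‖
  set q := ‖b‖
  set r := ‖a - b‖
  have hp : 0 ≤ p := norm_nonneg _
  have hq : 0 ≤ q := norm_nonneg _
  have hr : 0 ≤ r := norm_nonneg _
  have h3 : q ≤ p + r := by
    have := (abs_le.1 h2).1
    linarith
  have h4 : |q ^ 2 - p ^ 2| ≤ r * (2 * p + r) := by
    have e : q ^ 2 - p ^ 2 = (q - p) * (q + p) := by ring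
    rw [e, abs_mul, abs_sub_comm, abs_of_nonneg (by positivity : 0 ≤ q + p)]
    exact mul_le_mul h2 (by linarith) (by positivity) hr
  have h5 : 2 * p * r ≤ δ * p ^ 2 + 1 / δ * r ^ 2 := by
    have h6 : 0 ≤ (δ * p - r) ^ 2 / δ := by positivity
    have h7 : (δ * p - r) ^ 2 / δ = δ * p ^ 2 - 2 * p * r + 1 / δ * r ^ 2 := by
      field_simp
      ring
    linarith
  nlinarith

/-- a kernel `1/d(x,y)` bounded by `1/|c(x) - y|` -/
structure Ker (d : E3 → E3 → ℝ) (c : E3 → E3) : Prop where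
  le : ∀ x y, ‖c x - y‖ ≤ d x y
  meas : ∀ x, Measurable (d x)
  aem : ∀ u G, IsH1 u G → AEStronglyMeasurable (fun x => ∫ y, ‖u y‖ ^ 2 / d x y) volume

/-- the potential -/
noncomputable def PD (d : E3 → E3 → ℝ) (u : E3 → ℂ) (x : E3) : ℝ := ∫ y, ‖u y‖ ^ 2 / d x y

theorem aene (a : E3) : ∀ᵐ x : E3, x ≠ a := by
  have : (volume : Measure E3) {a} = 0 := measure_singleton _
  rw [ae_iff]
  simpa using this

/-- the squared `H¹` norm -/
noncomputable def nH (u : E3 → ℂ) (G : Fin 3 → E3 → ℂ) : ℝ := (∫ x, g2 G x) + mass u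

theorem nH_nonneg (u : E3 → ℂ) (G : Fin 3 → E3 → ℂ) : 0 ≤ nH u G := by
  unfold nH
  have h1 : 0 ≤ ∫ y, g2 G y := integral_nonneg fun x => by
    unfold g2
    exact Finset.sum_nonneg fun i _ => by positivity
  have h2 : 0 ≤ mass u := integral_nonneg fun x => by positivity
  linarith

theorem pd_facts (hB : T_hb) {d : E3 → E3 → ℝ} {c : E3 → E3} (hk : Ker d c) {u : E3 → ℂ}
    {G : Fin 3 → E3 → ℂ} (hu : IsH1 u G) (x : E3) :
    Integrable (fun y => ‖u y‖ ^ 2 / d x y) ∧ 0 ≤ PD d u x ∧ PD d u x ≤ nH u G := by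
  obtain ⟨hb1, -⟩ := hB u G hu
  obtain ⟨h1, h2, h3⟩ := hb1 (c x)
  have hle : ∀ᵐ y, ‖u y‖ ^ 2 / d x y ≤ ‖u y‖ ^ 2 / ‖c x - y‖ := by
    filter_upwards [aene (c x)] with y hy
    have hd : 0 < ‖c x - y‖ := norm_pos_iff.2 (sub_ne_zero.2 hy.symm)
    have := hk.le x y
    gcongr
  have hdn : ∀ y, 0 ≤ d x y := fun y => (norm_nonneg _).trans (hk.le x y)
  have hm : AEStronglyMeasurable (fun y => ‖u y‖ ^ 2 / d x y) volume :=
    (integrable_sq hu.memLp).1.mul (hk.meas x).inv.aestronglyMeasurable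
  have hi : Integrable (fun y => ‖u y‖ ^ 2 / d x y) := by
    refine h1.mono' hm ?_
    filter_upwards [hle] with y hy
    have := hdn y
    rw [Real.norm_eq_abs, abs_of_nonneg (by positivity)]
    exact hy
  refine ⟨hi, integral_nonneg fun y => ?_, (integral_mono_ae hi h1 hle).trans h3⟩
  have := hdn y
  show 0 ≤ ‖u y‖ ^ 2 / d x y
  positivity

theorem pd_diff (hB : T_hb) {d : E3 → E3 → ℝ} {c : E3 → E3} (hk : Ker d c) {u w : E3 → ℂ}
    {G W : Fin 3 → E3 → ℂ} (hu : IsH1 u G) (hw : IsH1 w W) {δ : ℝ} (hδ : 0 < δ) (x : E3) :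
    |PD d w x - PD d u x| ≤ δ * nH u G +
      (1 / δ + 1) * nH (fun x => u x - w x) (fun i x => G i x - W i x) := by
  obtain ⟨a1, -, a3⟩ := pd_facts hB hk hu x
  obtain ⟨b1, -, -⟩ := pd_facts hB hk hw x
  obtain ⟨c1, -, c3⟩ := pd_facts hB hk (isH1_sub hu hw) x
  have hdn : ∀ y, 0 ≤ d x y := fun y => (norm_nonneg _).trans (hk.le x y)
  have e : PD d w x - PD d u x = ∫ y, (‖w y‖ ^ 2 / d x y - ‖u y‖ ^ 2 / d x y) :=
    (integral_sub b1 a1).symm
  rw [e]
  calc |∫ y, (‖w y‖ ^ 2 / d x y - ‖u y‖ ^ 2 / d x y)|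
      ≤ ∫ y, |‖w y‖ ^ 2 / d x y - ‖u y‖ ^ 2 / d x y| := abs_integral_le_integral_abs
    _ ≤ ∫ y, (δ * (‖u y‖ ^ 2 / d x y) + (1 / δ + 1) * (‖u y - w y‖ ^ 2 / d x y)) := by
        refine integral_mono (b1.sub a1).abs ((a1.const_mul _).add (c1.const_mul _)) fun y => ?_
        show |‖w y‖ ^ 2 / d x y - ‖u y‖ ^ 2 / d x y| ≤
          δ * (‖u y‖ ^ 2 / d x y) + (1 / δ + 1) * (‖u y - w y‖ ^ 2 / d x y)
        rw [← sub_div, abs_div, abs_of_nonneg (hdn y)]
        have h1 := sq_diff_le (u y) (w y) hδ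
        calc |‖w y‖ ^ 2 - ‖u y‖ ^ 2| / d x y
            ≤ (δ * ‖u y‖ ^ 2 + (1 / δ + 1) * ‖u y - w y‖ ^ 2) / d x y :=
              div_le_div_of_nonneg_right h1 (hdn y)
          _ = _ := by ring
    _ = δ * PD d u x + (1 / δ + 1) * PD d (fun x => u x - w x) x := by
        rw [integral_add (a1.const_mul _) (c1.const_mul _), integral_const_mul,
          integral_const_mul]
        rfl
    _ ≤ _ := by gcongr

theorem int_weight {h : E3 → ℝ} {C : ℝ} (hm : AEStronglyMeasurable h volume)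
    (hb : ∀ x, 0 ≤ h x ∧ h x ≤ C) {k : E3 → ℝ} {D : ℝ} (hkm : AEStronglyMeasurable k volume)
    (hk : ∀ x, |k x| ≤ D) {f : E3 → ℝ} (hf : Integrable f) :
    Integrable (fun x => h x * f x * k x) := by
  have hC : 0 ≤ C := (hb 0).1.trans (hb 0).2
  refine (hf.abs.const_mul (C * D)).mono' ((hm.mul hf.1).mul hkm) (Eventually.of_forall fun x => ?_)
  rw [norm_mul, norm_mul, Real.norm_eq_abs, Real.norm_eq_abs, Real.norm_eq_abs,
    abs_of_nonneg (hb x).1]
  have h1 := (hb x).1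
  have h2 := (hb x).2
  have h3 := hk x
  calc h x * |f x| * |k x| ≤ C * |f x| * D := by gcongr
    _ = C * D * |f x| := by ring

theorem kernel_diff (hB : T_hb) {d : E3 → E3 → ℝ} {c : E3 → E3} (hk : Ker d c) {u w : E3 → ℂ}
    {G W : Fin 3 → E3 → ℂ} (hu : IsH1 u G) (hw : IsH1 w W) {h : E3 → ℝ} {C : ℝ}
    (hm : AEStronglyMeasurable h volume) (hb : ∀ x, 0 ≤ h x ∧ h x ≤ C) {δ : ℝ} (hδ : 0 < δ) :
    |(∫ x, h x * ‖w x‖ ^ 2 * PD d w x) - ∫ x, h x * ‖u x‖ ^ 2 * PD d u x| ≤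
      C * ((δ * nH u G + (1 / δ + 1) * nH (fun x => u x - w x) (fun i x => G i x - W i x)) *
        (2 * nH u G + (δ * nH u G +
          (1 / δ + 1) * nH (fun x => u x - w x) (fun i x => G i x - W i x)))) := by
  set N := nH u G with hN
  set E := nH (fun x => u x - w x) (fun i x => G i x - W i x) with hE
  set τ := δ * N + (1 / δ + 1) * E with hτ
  have hN0 : 0 ≤ N := nH_nonneg _ _
  have hE0 : 0 ≤ E := nH_nonneg _ _
  have hτ0 : 0 ≤ τ := by positivity
  have hC : 0 ≤ C := (hb 0).1.trans (hb 0).2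
  have hPu := fun x => (pd_facts hB hk hu x).2
  have hPw := fun x => (pd_facts hB hk hw x).2
  have hd := fun x => pd_diff hB hk hu hw hδ x
  have hau : ∀ x, |PD d u x| ≤ N := fun x => by
    rw [abs_of_nonneg (hPu x).1]; exact (hPu x).2
  have haw : ∀ x, |PD d w x| ≤ N + τ := fun x => by
    have h1 := hd x
    have h2 := abs_sub_abs_le_abs_sub (PD d w x) (PD d u x)
    have h3 := hau x
    linarith
  have hsu := integrable_sq hu.memLp
  have hsw := integrable_sq hw.memLp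
  have hsd := integrable_sq (isH1_sub hu hw).memLp
  have hmu : mass u ≤ N := by
    have h1 : 0 ≤ ∫ y, g2 G y := integral_nonneg fun x => by
      unfold g2
      exact Finset.sum_nonneg fun i _ => by positivity
    rw [hN]; unfold nH; linarith
  have hmd : mass (fun x => u x - w x) ≤ E := by
    have h1 : 0 ≤ ∫ y, g2 (fun i x => G i x - W i x) y := integral_nonneg fun x => by
      unfold g2
      exact Finset.sum_nonneg fun i _ => by positivity
    rw [hE]; unfold nH; linarith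
  have hmu0 : 0 ≤ mass u := integral_nonneg fun x => by positivity
  have hmd0 : 0 ≤ mass (fun x => u x - w x) := integral_nonneg fun x => by positivity
  have i1 : Integrable (fun x => h x * ‖w x‖ ^ 2 * PD d w x) :=
    int_weight hm hb (hk.aem w W hw) haw hsw
  have i2 : Integrable (fun x => h x * ‖u x‖ ^ 2 * PD d u x) :=
    int_weight hm hb (hk.aem u G hu) hau hsu
  rw [← integral_sub i1 i2]
  have hpt : ∀ x, |h x * ‖w x‖ ^ 2 * PD d w x - h x * ‖u x‖ ^ 2 * PD d u x| ≤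
      C * ((N + τ) * (δ * ‖u x‖ ^ 2 + (1 / δ + 1) * ‖u x - w x‖ ^ 2) + τ * ‖u x‖ ^ 2) := by
    intro x
    have e : h x * ‖w x‖ ^ 2 * PD d w x - h x * ‖u x‖ ^ 2 * PD d u x =
        h x * ((‖w x‖ ^ 2 - ‖u x‖ ^ 2) * PD d w x + ‖u x‖ ^ 2 * (PD d w x - PD d u x)) := by ring
    rw [e, abs_mul, abs_of_nonneg (hb x).1]
    have h1 := sq_diff_le (u x) (w x) hδ
    have h2 : |(‖w x‖ ^ 2 - ‖u x‖ ^ 2) * PD d w x + ‖u x‖ ^ 2 * (PD d w x - PD d u x)| ≤
        (N + τ) * (δ * ‖u x‖ ^ 2 + (1 / δ + 1) * ‖u x - w x‖ ^ 2) + τ * ‖u x‖ ^ 2 := by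
      refine (abs_add_le _ _).trans ?_
      rw [abs_mul, abs_mul, abs_of_nonneg (by positivity : 0 ≤ ‖u x‖ ^ 2)]
      have h3 := haw x
      have h4 := hd x
      have h5 : |‖w x‖ ^ 2 - ‖u x‖ ^ 2| * |PD d w x| ≤
          (δ * ‖u x‖ ^ 2 + (1 / δ + 1) * ‖u x - w x‖ ^ 2) * (N + τ) := by gcongr
      have h6 : ‖u x‖ ^ 2 * |PD d w x - PD d u x| ≤ ‖u x‖ ^ 2 * τ := by gcongr
      linarith
    exact mul_le_mul (hb x).2 h2 (abs_nonneg _) hC
  have i3 : Integrable (fun x => δ * ‖u x‖ ^ 2 + (1 / δ + 1) * ‖u x - w x‖ ^ 2) :=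
    (hsu.const_mul _).add (hsd.const_mul _)
  have i4 : Integrable (fun x =>
      (N + τ) * (δ * ‖u x‖ ^ 2 + (1 / δ + 1) * ‖u x - w x‖ ^ 2) + τ * ‖u x‖ ^ 2) :=
    (i3.const_mul _).add (hsu.const_mul _)
  calc |∫ x, (h x * ‖w x‖ ^ 2 * PD d w x - h x * ‖u x‖ ^ 2 * PD d u x)|
      ≤ ∫ x, |h x * ‖w x‖ ^ 2 * PD d w x - h x * ‖u x‖ ^ 2 * PD d u x| :=
        abs_integral_le_integral_abs
    _ ≤ ∫ x, C * ((N + τ) * (δ * ‖u x‖ ^ 2 + (1 / δ + 1) * ‖u x - w x‖ ^ 2) + τ * ‖u x‖ ^ 2) :=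
        integral_mono (i1.sub i2).abs (i4.const_mul _) hpt
    _ = C * ((N + τ) * (δ * mass u + (1 / δ + 1) * mass (fun x => u x - w x)) + τ * mass u) := by
        rw [integral_const_mul, integral_add (i3.const_mul _) (hsu.const_mul _),
          integral_const_mul, integral_const_mul, integral_add (hsu.const_mul _) (hsd.const_mul _),
          integral_const_mul, integral_const_mul]
        rfl
    _ ≤ C * (τ * (2 * N + τ)) := by
        gcongr
        have h1 : δ * mass u + (1 / δ + 1) * mass (fun x => u x - w x) ≤ τ := by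
          rw [hτ]; gcongr
        have h2 : (N + τ) * (δ * mass u + (1 / δ + 1) * mass (fun x => u x - w x)) ≤
          (N + τ) * τ := by gcongr
        have h3 : τ * mass u ≤ τ * N := by gcongr
        nlinarith

theorem kernel_tendsto (hB : T_hb) {d : E3 → E3 → ℝ} {c : E3 → E3} (hk : Ker d c) {u : E3 → ℂ}
    {G : Fin 3 → E3 → ℂ} (hu : IsH1 u G) {w : ℕ → E3 → ℂ} {W : ℕ → Fin 3 → E3 → ℂ}
    (hw : ∀ n, IsH1 (w n) (W n)) {h : E3 → ℝ} {C : ℝ}
    (hm : AEStronglyMeasurable h volume) (hb : ∀ x, 0 ≤ h x ∧ h x ≤ C)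
    (hlim : Tendsto (fun n => nH (fun x => u x - w n x) (fun i x => G i x - W n i x)) atTop (𝓝 0)) :
    Tendsto (fun n => ∫ x, h x * ‖w n x‖ ^ 2 * PD d (w n) x) atTop
      (𝓝 (∫ x, h x * ‖u x‖ ^ 2 * PD d u x)) := by
  set N := nH u G with hN
  set E : ℕ → ℝ := fun n => nH (fun x => u x - w n x) (fun i x => G i x - W n i x) with hE
  have hE0 : ∀ n, 0 ≤ E n := fun n => nH_nonneg _ _
  have hN0 : 0 ≤ N := nH_nonneg _ _
  have hC : 0 ≤ C := (hb 0).1.trans (hb 0).2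
  set δ : ℕ → ℝ := fun n => √(E n) + 1 / ((n : ℝ) + 1) with hδ
  have hδ0 : ∀ n, 0 < δ n := fun n => by
    have : 0 < 1 / ((n : ℝ) + 1) := by positivity
    have := Real.sqrt_nonneg (E n)
    simp only [hδ]
    linarith
  have hsq : Tendsto (fun n => √(E n)) atTop (𝓝 0) := by
    have := (Real.continuous_sqrt.tendsto 0).comp hlim
    rw [Real.sqrt_zero] at this
    exact this
  have hδl : Tendsto δ atTop (𝓝 0) := by
    have := hsq.add tendsto_one_div_add_atTop_nhds_zero_nat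
    rw [add_zero] at this
    exact this
  set τ : ℕ → ℝ := fun n => δ n * N + (√(E n) + E n) with hτ
  have hτl : Tendsto τ atTop (𝓝 0) := by
    have := (hδl.mul_const N).add (hsq.add hlim)
    rw [zero_mul, add_zero, add_zero] at this
    exact this
  have hle : ∀ n, δ n * N + (1 / δ n + 1) * E n ≤ τ n := by
    intro n
    have h8 : 1 / δ n * E n ≤ √(E n) := by
      rw [one_div, inv_mul_le_iff₀ (hδ0 n)]
      calc E n = √(E n) * √(E n) := (Real.mul_self_sqrt (hE0 n)).symm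
        _ ≤ δ n * √(E n) := by
          apply mul_le_mul_of_nonneg_right _ (Real.sqrt_nonneg _)
          have : 0 < 1 / ((n : ℝ) + 1) := by positivity
          simp only [hδ]
          linarith
    simp only [hτ]
    linarith
  have hbound : ∀ n, |(∫ x, h x * ‖w n x‖ ^ 2 * PD d (w n) x) -
      ∫ x, h x * ‖u x‖ ^ 2 * PD d u x| ≤ C * (τ n * (2 * N + τ n)) := by
    intro n
    refine (kernel_diff hB hk hu (hw n) hm hb (hδ0 n)).trans ?_
    have h1 := hle n
    have h2 := hδ0 n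
    have h3 := hE0 n
    have h4 : 0 ≤ δ n * N + (1 / δ n + 1) * E n := by positivity
    change C * ((δ n * N + (1 / δ n + 1) * E n) * (2 * N + (δ n * N + (1 / δ n + 1) * E n))) ≤ _
    gcongr
  have hfin : Tendsto (fun n => C * (τ n * (2 * N + τ n))) atTop (𝓝 (C * (0 * (2 * N + 0)))) :=
    (hτl.mul (tendsto_const_nhds.add hτl)).const_mul C
  rw [zero_mul, mul_zero] at hfin
  rw [tendsto_iff_norm_sub_tendsto_zero]
  exact squeeze_zero (fun n => norm_nonneg _) (fun n => by rw [Real.norm_eq_abs]; exact hbound n)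
    hfin

theorem ker1 (hB : T_hb) : Ker (fun x y : E3 => ‖x - y‖) (fun x => x) where
  le := fun x y => le_rfl
  meas := fun x => (measurable_id.const_sub x).norm
  aem := fun u G hu => by
    have h1 := (hB u G hu).2.1
    exact (continuous_hartree h1).aestronglyMeasurable

theorem ub_int (hB : T_hb) {u : E3 → ℂ} {G : Fin 3 → E3 → ℂ} (hu : IsH1 u G) (r : ℝ) :
    Integrable (fun y => ‖u y‖ ^ 2 / max r ‖y‖) := by
  obtain ⟨h1, -, -⟩ := (hB u G hu).1 0
  have hm : AEStronglyMeasurable (fun y => ‖u y‖ ^ 2 / max r ‖y‖) volume :=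
    (integrable_sq hu.memLp).1.mul (measurable_const.max measurable_norm).inv.aestronglyMeasurable
  refine h1.mono' hm ?_
  filter_upwards [aene (0 : E3)] with y hy
  have hd : 0 < ‖y‖ := norm_pos_iff.2 hy
  have hmx : 0 ≤ max r ‖y‖ := hd.le.trans (le_max_right _ _)
  rw [Real.norm_eq_abs, abs_of_nonneg (by positivity), zero_sub, norm_neg]
  gcongr
  exact le_max_right _ _

theorem ub_antitone (hB : T_hb) {u : E3 → ℂ} {G : Fin 3 → E3 → ℂ} (hu : IsH1 u G) :
    Antitone (Ub u) := by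
  intro r s hrs
  refine integral_mono_ae (ub_int hB hu s) (ub_int hB hu r) ?_
  filter_upwards [aene (0 : E3)] with y hy
  have hd : 0 < ‖y‖ := norm_pos_iff.2 hy
  have h1 : 0 < max r ‖y‖ := hd.trans_le (le_max_right _ _)
  gcongr

theorem ker2 (hB : T_hb) : Ker (fun x y : E3 => max ‖x‖ ‖y‖) (fun _ => 0) where
  le := fun x y => by
    rw [zero_sub, norm_neg]
    exact le_max_right _ _
  meas := fun x => measurable_const.max measurable_norm
  aem := fun u G hu => by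
    have h1 : Measurable (Ub u) := (ub_antitone hB hu).measurable
    exact (h1.comp measurable_norm).aestronglyMeasurable

theorem comp_norm_cont {h : ℝ → ℝ} (hc : ContinuousOn h (Ici 0)) :
    Continuous (fun x : E3 => h ‖x‖) :=
  hc.comp_continuous continuous_norm (fun x => norm_nonneg x)

theorem mult_nonneg {h h1 : ℝ → ℝ} (hM : Mult h h1) {r : ℝ} (hr : 0 ≤ r) : 0 ≤ h r := by
  rcases eq_or_lt_of_le hr with h0 | h0
  · rw [← h0]; exact hM.nn
  · exact (hM.pos r h0).le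

theorem mp_bdd (hB : T_hb) (hT : T_mpt) {u : E3 → ℂ} {G : Fin 3 → E3 → ℂ} (hu : IsH1 u G)
    {h h1 : ℝ → ℝ} (hM : Mult h h1) {C : ℝ} (hC : ∀ r, 0 ≤ r → h r ≤ C) :
    ∫ x, h ‖x‖ * ‖u x‖ ^ 2 * Ub u ‖x‖ ≤ ∫ x, h ‖x‖ * ‖u x‖ ^ 2 * hartree u x := by
  obtain ⟨φ, ψ, htest, hlim, hlimG⟩ := Pool.Agent.H99.HM.Main.dens u G hu
  set w : ℕ → E3 → ℂ := fun n x => (φ n x : ℂ) + (ψ n x : ℂ) * Complex.I with hw
  set W : ℕ → Fin 3 → E3 → ℂ := fun n i x => (pd i (φ n) x : ℂ) + (pd i (ψ n) x : ℂ) * Complex.I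
    with hW
  have hwH : ∀ n, IsH1 (w n) (W n) := fun n => isH1_test (htest n).1 (htest n).2
  have hhc : Continuous (fun x : E3 => h ‖x‖) := comp_norm_cont hM.cont
  have hhb : ∀ x : E3, 0 ≤ h ‖x‖ ∧ h ‖x‖ ≤ C := fun x =>
    ⟨mult_nonneg hM (norm_nonneg x), hC _ (norm_nonneg x)⟩
  have hnH : Tendsto (fun n => nH (fun x => u x - w n x) (fun i x => G i x - W n i x)) atTop
      (𝓝 0) := by
    have e : ∀ n, nH (fun x => u x - w n x) (fun i x => G i x - W n i x) =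
        (∑ i, ∫ x, ‖G i x - W n i x‖ ^ 2) + ∫ x, ‖u x - w n x‖ ^ 2 := by
      intro n
      unfold nH g2 mass
      rw [integral_finsetSum _ fun i _ => integrable_sq ((isH1_sub hu (hwH n)).memLp_grad i)]
    simp only [e]
    have h3 := (tendsto_finsetSum Finset.univ fun i _ => hlimG i).add hlim
    simpa using h3
  have l1 := kernel_tendsto hB (ker1 hB) hu hwH hhc.aestronglyMeasurable hhb hnH
  have l2 := kernel_tendsto hB (ker2 hB) hu hwH hhc.aestronglyMeasurable hhb hnH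
  refine le_of_tendsto_of_tendsto' l2 l1 fun n => ?_
  -- the inequality for test functions
  have hρ : IsTest (fun x => φ n x ^ 2 + ψ n x ^ 2) := by
    refine ⟨((htest n).1.1.pow 2).add ((htest n).2.1.pow 2), ?_⟩
    have h3 : HasCompactSupport (fun x => φ n x ^ 2) :=
      (htest n).1.2.comp_left (g := fun y : ℝ => y ^ 2) (by simp)
    have h4 : HasCompactSupport (fun x => ψ n x ^ 2) :=
      (htest n).2.2.comp_left (g := fun y : ℝ => y ^ 2) (by simp)
    exact h3.add h4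
  have hin := hT _ hρ h h1 hM ⟨C, hC⟩
  have hsq : (fun x => φ n x ^ 2 + ψ n x ^ 2) = fun x => ‖w n x‖ ^ 2 := by
    ext x
    simp only [hw, norm_sq_test]
  have hsq' : ∀ x, φ n x ^ 2 + ψ n x ^ 2 = ‖w n x‖ ^ 2 := fun x => congrFun hsq x
  rw [hsq] at hin
  simp only [hsq'] at hin
  change 0 ≤ ∫ x, h ‖x‖ * ‖w n x‖ ^ 2 * (PD (fun x y : E3 => ‖x - y‖) (w n) x -
    PD (fun x y : E3 => max ‖x‖ ‖y‖) (w n) x) at hin
  have b1 : ∀ x, |PD (fun x y : E3 => ‖x - y‖) (w n) x| ≤ nH (w n) (W n) := fun x => by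
    have := (pd_facts hB (ker1 hB) (hwH n) x).2
    rw [abs_of_nonneg this.1]; exact this.2
  have b2 : ∀ x, |PD (fun x y : E3 => max ‖x‖ ‖y‖) (w n) x| ≤ nH (w n) (W n) := fun x => by
    have := (pd_facts hB (ker2 hB) (hwH n) x).2
    rw [abs_of_nonneg this.1]; exact this.2
  have j1 : Integrable (fun x => h ‖x‖ * ‖w n x‖ ^ 2 * PD (fun x y : E3 => ‖x - y‖) (w n) x) :=
    int_weight hhc.aestronglyMeasurable hhb ((ker1 hB).aem _ _ (hwH n)) b1
      (integrable_sq (hwH n).memLp)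
  have j2 : Integrable
      (fun x => h ‖x‖ * ‖w n x‖ ^ 2 * PD (fun x y : E3 => max ‖x‖ ‖y‖) (w n) x) :=
    int_weight hhc.aestronglyMeasurable hhb ((ker2 hB).aem _ _ (hwH n)) b2
      (integrable_sq (hwH n).memLp)
  simp only [mul_sub] at hin
  rw [integral_sub j1 j2] at hin
  linarith

theorem mp (hT : T_mpt) (hTr : T_trunc) (hB : T_hb) : T_mp := by
  intro u G hu hMom h h1 hM
  obtain ⟨C, hC0, hgr, htr⟩ := hTr h h1 hM
  have hhc : Continuous (fun x : E3 => h ‖x‖) := comp_norm_cont hM.cont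
  have m0 := (hMom 0).1
  have m3 := (hMom 3).1
  simp only [pow_zero, one_mul] at m0
  have hdom : ∀ D : ℝ, Integrable (fun x => C * (1 + ‖x‖ ^ 3) * ‖u x‖ ^ 2 * D) := by
    intro D
    have e : (fun x => C * (1 + ‖x‖ ^ 3) * ‖u x‖ ^ 2 * D) =
        fun x => C * D * (‖u x‖ ^ 2 + ‖x‖ ^ 3 * ‖u x‖ ^ 2) := by
      ext x; ring
    rw [e]
    exact (m0.add m3).const_mul _
  set N := nH u G with hN
  have hN0 : 0 ≤ N := nH_nonneg _ _
  have key : ∀ k : E3 → ℝ, AEStronglyMeasurable k volume → (∀ x, |k x| ≤ N) →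
      Integrable (fun x => h ‖x‖ * ‖u x‖ ^ 2 * k x) ∧
      Tendsto (fun n : ℕ => ∫ x, h (mR ((n : ℝ) + 1) ‖x‖) * ‖u x‖ ^ 2 * k x) atTop
        (𝓝 (∫ x, h ‖x‖ * ‖u x‖ ^ 2 * k x)) := by
    intro k hkm hk
    have hb : ∀ g : E3 → ℝ, (∀ x, 0 ≤ g x ∧ g x ≤ C * (1 + ‖x‖ ^ 3)) → ∀ x,
        ‖g x * ‖u x‖ ^ 2 * k x‖ ≤ C * (1 + ‖x‖ ^ 3) * ‖u x‖ ^ 2 * N := by
      intro g hg x
      rw [norm_mul, norm_mul, Real.norm_eq_abs, Real.norm_eq_abs, Real.norm_eq_abs,
        abs_of_nonneg (hg x).1, abs_of_nonneg (by positivity : 0 ≤ ‖u x‖ ^ 2)]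
      have h1 := (hg x).1
      have h2 := (hg x).2
      have h3 := hk x
      gcongr
    have hu2 := (integrable_sq hu.memLp).1
    constructor
    · refine (hdom N).mono' ((hhc.aestronglyMeasurable.mul hu2).mul hkm)
        (Eventually.of_forall (hb _ fun x => ⟨mult_nonneg hM (norm_nonneg x),
          (hgr _ (norm_nonneg x)).1⟩))
    · refine tendsto_integral_of_dominated_convergence _ (fun n => ?_) (hdom N)
        (fun n => Eventually.of_forall (hb _ fun x => ?_)) (Eventually.of_forall fun x => ?_)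
      · have hMn := (htr ((n : ℝ) + 1) (by positivity)).1
        exact ((comp_norm_cont hMn.cont).aestronglyMeasurable.mul hu2).mul hkm
      · have hMn := htr ((n : ℝ) + 1) (by positivity)
        exact ⟨mult_nonneg hMn.1 (norm_nonneg x), hMn.2.2 _ (norm_nonneg x)⟩
      · have hr : 0 ≤ ‖x‖ := norm_nonneg x
        have h5 : Tendsto (fun n : ℕ => mR ((n : ℝ) + 1) ‖x‖) atTop (𝓝[Ici 0] ‖x‖) := by
          rw [tendsto_nhdsWithin_iff]
          refine ⟨?_, Eventually.of_forall fun n => ?_⟩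
          · have h6 : Tendsto (fun n : ℕ => ‖x‖ / (1 + ‖x‖ * (1 / ((n : ℝ) + 1)))) atTop
                (𝓝 (‖x‖ / (1 + ‖x‖ * 0))) := by
              apply tendsto_const_nhds.div
              · exact tendsto_const_nhds.add
                  (tendsto_one_div_add_atTop_nhds_zero_nat.const_mul ‖x‖)
              · simp
            rw [mul_zero, add_zero, div_one] at h6
            refine h6.congr fun n => ?_
            unfold mR
            field_simp
          · unfold mR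
            simp only [mem_Ici]
            positivity
        have h6 : Tendsto (fun n : ℕ => h (mR ((n : ℝ) + 1) ‖x‖)) atTop (𝓝 (h ‖x‖)) :=
          (hM.cont ‖x‖ (mem_Ici.2 hr)).tendsto.comp h5
        exact (h6.mul_const _).mul_const _
  have k1 := pd_facts hB (ker1 hB) hu
  have k2 := pd_facts hB (ker2 hB) hu
  obtain ⟨i1, t1⟩ := key (fun x => hartree u x) ((ker1 hB).aem u G hu) (fun x => by
    change |PD (fun x y : E3 => ‖x - y‖) u x| ≤ N
    rw [abs_of_nonneg (k1 x).2.1]; exact (k1 x).2.2)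
  obtain ⟨i2, t2⟩ := key (fun x => Ub u ‖x‖) ((ker2 hB).aem u G hu) (fun x => by
    change |PD (fun x y : E3 => max ‖x‖ ‖y‖) u x| ≤ N
    rw [abs_of_nonneg (k2 x).2.1]; exact (k2 x).2.2)
  refine ⟨i2, i1, le_of_tendsto_of_tendsto' t2 t1 fun n => ?_⟩
  obtain ⟨hMn, ⟨C', hC'⟩, -⟩ := htr ((n : ℝ) + 1) (by positivity)
  exact mp_bdd hB hT hu hMn hC'

end Pool.Agent.H76.HN
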