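import Pool.Agent.H99.HM.Main
import Pool.Agent.H99.HN.Targets
import Pool.Agent.H76.HN.MP

/-!
# Solutions give feasible measures (module FEAS)
-/

namespace Pool.Agent.H76.HN

open MeasureTheory Set Filter Topology Real Pool.Agent.H99.HM Pool.Agent.H99.HN
open Pool.Agent.H49.HM
open scoped ContDiff

theorem pow_le_gr {r : ℝ} (hr : 0 < r) {n N : ℕ} (h : n ≤ N) : r ^ n ≤ 1 / r + r ^ N := by
  rcases le_total r 1 with h1 | h1
  · have h2 : r ^ n ≤ 1 := pow_le_one₀ hr.le h1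
    have h3 : 1 ≤ 1 / r := by rw [le_div_iff₀ hr]; linarith
    have h4 : 0 ≤ r ^ N := by positivity
    linarith
  · have h2 : r ^ n ≤ r ^ N := pow_le_pow_right₀ h1 h
    have h3 : 0 < 1 / r := by positivity
    linarith

theorem gr1_const {f : ℝ → ℝ} {C : ℝ} {n : ℕ} (h : ∀ r, 0 < r → |f r| ≤ C * (1 / r + r ^ n)) :
    0 ≤ C := by
  have h1 := h 1 one_pos
  have h2 := abs_nonneg (f 1)
  norm_num at h1
  linarith

theorem gr_const {f : ℝ → ℝ} {C : ℝ} {n : ℕ} (h : ∀ r, 0 < r → |f r| ≤ C * (1 + r ^ n)) :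
    0 ≤ C := by
  have h1 := h 1 one_pos
  have h2 := abs_nonneg (f 1)
  norm_num at h1
  linarith

theorem gr1_add {f g : ℝ → ℝ} (hf : Gr1 f) (hg : Gr1 g) : Gr1 (fun r => f r + g r) := by
  obtain ⟨C, n, hC⟩ := hf
  obtain ⟨D, m, hD⟩ := hg
  have hC0 := gr1_const hC
  have hD0 := gr1_const hD
  refine ⟨2 * (C + D), max n m, fun r hr => ?_⟩
  have h1 := hC r hr
  have h2 := hD r hr
  have h3 := pow_le_gr hr (le_max_left n m)
  have h4 := pow_le_gr hr (le_max_right n m)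
  have hr1 : 0 < 1 / r := by positivity
  have hr2 : 0 < r ^ max n m := by positivity
  calc |f r + g r| ≤ |f r| + |g r| := abs_add_le _ _
    _ ≤ C * (1 / r + r ^ n) + D * (1 / r + r ^ m) := by linarith
    _ ≤ C * (1 / r + (1 / r + r ^ max n m)) + D * (1 / r + (1 / r + r ^ max n m)) := by gcongr
    _ ≤ 2 * (C + D) * (1 / r + r ^ max n m) := by nlinarith [mul_nonneg hC0 hr2.le, mul_nonneg hD0 hr2.le]

theorem gr1_neg {f : ℝ → ℝ} (hf : Gr1 f) : Gr1 (fun r => -f r) := by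
  obtain ⟨C, n, hC⟩ := hf
  exact ⟨C, n, fun r hr => by rw [abs_neg]; exact hC r hr⟩

theorem gr1_cmul {f : ℝ → ℝ} (c : ℝ) (hf : Gr1 f) : Gr1 (fun r => c * f r) := by
  obtain ⟨C, n, hC⟩ := hf
  refine ⟨|c| * C, n, fun r hr => ?_⟩
  rw [abs_mul, mul_assoc]
  exact mul_le_mul_of_nonneg_left (hC r hr) (abs_nonneg _)

theorem gr1_div {f : ℝ → ℝ} (hf : Gr f) : Gr1 (fun r => f r / r) := by
  obtain ⟨C, n, hC⟩ := hf
  have hC0 := gr_const hC
  refine ⟨2 * C, n, fun r hr => ?_⟩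
  have h1 := hC r hr
  rw [abs_div, abs_of_pos hr, div_le_iff₀ hr]
  have h2 : 1 + r ^ n ≤ 2 * (1 / r + r ^ n) * r := by
    have e : 2 * (1 / r + r ^ n) * r = 2 + 2 * (r ^ n * r) := by field_simp
    rw [e]
    rcases le_total r 1 with h3 | h3
    · have h4 : r ^ n ≤ 1 := pow_le_one₀ hr.le h3
      have h5 : 0 < r ^ n * r := by positivity
      linarith
    · have h4 : r ^ n * 1 ≤ r ^ n * r := by gcongr
      have h5 : 0 < r ^ n := by positivity
      linarith
  calc |f r| ≤ C * (1 + r ^ n) := h1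
    _ ≤ C * (2 * (1 / r + r ^ n) * r) := by gcongr
    _ = 2 * C * (1 / r + r ^ n) * r := by ring

theorem gr_gr1 {f : ℝ → ℝ} (hf : Gr f) : Gr1 f := by
  obtain ⟨C, n, hC⟩ := hf
  have hC0 := gr_const hC
  refine ⟨2 * C, n, fun r hr => ?_⟩
  have h1 := hC r hr
  have h2 : 1 ≤ 1 / r + r ^ n := by
    have := pow_le_gr hr (Nat.zero_le n)
    rwa [pow_zero] at this
  have h3 : r ^ n ≤ 1 / r + r ^ n := by
    have : 0 < 1 / r := by positivity
    linarith
  calc |f r| ≤ C * (1 + r ^ n) := h1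
    _ ≤ C * ((1 / r + r ^ n) + (1 / r + r ^ n)) := by gcongr
    _ = _ := by ring

theorem meas_ind {f : ℝ → ℝ} (hf : ContinuousOn f (Ioi 0)) : Measurable ((Ioi 0).indicator f) := by
  have h1 : Measurable ((Ioi (0 : ℝ)).piecewise f (fun _ => 0)) :=
    hf.measurable_piecewise continuousOn_const measurableSet_Ioi
  have h2 : (Ioi (0 : ℝ)).indicator f = (Ioi (0 : ℝ)).piecewise f (fun _ => 0) := by
    ext x
    simp [indicator, piecewise]
  rw [h2]
  exact h1

theorem nu_int (hNu : T_nu) {u : E3 → ℂ} (hu : MemLp u 2 volume) {f : ℝ → ℝ}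
    (hf : Measurable ((Ioi 0).indicator f)) :
    (Integrable (fun x => f ‖x‖ * ‖u x‖ ^ 2) → Integrable f (nu u)) ∧
    ∫ r, f r ∂(nu u) = ∫ x, f ‖x‖ * ‖u x‖ ^ 2 := by
  obtain ⟨-, -, hsupp, hf'⟩ := hNu u hu
  have hae : f =ᵐ[nu u] (Ioi 0).indicator f := by
    have h1 : ∀ᵐ r ∂(nu u), r ∈ Ioi (0 : ℝ) := by
      rw [ae_iff]
      have : {r : ℝ | ¬ r ∈ Ioi (0 : ℝ)} = Iic 0 := by
        ext r; simp
      rw [this]
      exact hsupp
    filter_upwards [h1] with r hr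
    rw [indicator_of_mem hr]
  have hae2 : (fun x => (Ioi 0).indicator f ‖x‖ * ‖u x‖ ^ 2) =ᵐ[volume]
      fun x : E3 => f ‖x‖ * ‖u x‖ ^ 2 := by
    filter_upwards [aene (0 : E3)] with x hx
    rw [indicator_of_mem (mem_Ioi.2 (norm_pos_iff.2 hx))]
  obtain ⟨h1, h2⟩ := hf' _ hf
  constructor
  · intro hi
    exact ((h1.2 (hi.congr hae2.symm)).congr hae.symm)
  · rw [integral_congr_ae hae, h2, integral_congr_ae hae2]

theorem dr_le (G : Fin 3 → E3 → ℂ) (x : E3) : ‖dr G x‖ ^ 2 ≤ g2 G x := by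
  unfold dr g2
  have h1 : ‖∑ i, ((x i / ‖x‖ : ℝ) : ℂ) * G i x‖ ≤ ∑ i, |x i / ‖x‖| * ‖G i x‖ := by
    refine (norm_sum_le _ _).trans (le_of_eq ?_)
    refine Finset.sum_congr rfl fun i _ => ?_
    rw [norm_mul, Complex.norm_real, Real.norm_eq_abs]
  have h2 := Finset.sum_mul_sq_le_sq_mul_sq Finset.univ (fun i => |x i / ‖x‖|) (fun i => ‖G i x‖)
  have h3 : ∑ i, |x i / ‖x‖| ^ 2 ≤ 1 := by
    have e : ∑ i, |x i / ‖x‖| ^ 2 = (∑ i, x i ^ 2) / ‖x‖ ^ 2 := by
      rw [Finset.sum_div]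
      refine Finset.sum_congr rfl fun i _ => ?_
      rw [sq_abs, div_pow]
    have h4 : ∑ i, x i ^ 2 = ‖x‖ ^ 2 := by
      rw [EuclideanSpace.norm_sq_eq]
      simp [Real.norm_eq_abs, sq_abs]
    rw [e, h4]
    exact div_self_le_one _
  have h5 : 0 ≤ ∑ i, ‖G i x‖ ^ 2 := Finset.sum_nonneg fun i _ => by positivity
  calc ‖∑ i, ((x i / ‖x‖ : ℝ) : ℂ) * G i x‖ ^ 2 ≤ (∑ i, |x i / ‖x‖| * ‖G i x‖) ^ 2 := by gcongr
    _ ≤ (∑ i, |x i / ‖x‖| ^ 2) * ∑ i, ‖G i x‖ ^ 2 := h2
    _ ≤ 1 * ∑ i, ‖G i x‖ ^ 2 := by gcongr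
    _ = _ := one_mul _

theorem nu_singleton (u : E3 → ℂ) (r : ℝ) : nu u {r} = 0 := by
  unfold nu
  rw [Measure.map_apply measurable_norm (measurableSet_singleton r)]
  have h1 : (fun x : E3 => ‖x‖) ⁻¹' {r} = Metric.sphere 0 r := by
    ext x
    simp
  rw [h1]
  exact withDensity_absolutelyContinuous _ _ (Measure.addHaar_sphere _ _ _)

theorem feas (hNu : T_nu) (hMn : T_momn) (hE : T_ehp) (hMp : T_mp) (hK : T_kin) (hP : T_pint)
    (hT : T_trunc) (hB : T_hb) : T_feas := by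
  intro u lam tc hsol hlam htc hm
  obtain ⟨G, hu⟩ := hsol.1
  have hmass : 1 < mass u := by linarith
  have hMom := hMn u lam G hsol hu hlam hmass
  set c : ℝ := tc / mass u with hcdef
  have hc : 0 < c := by
    have : 0 < mass u := by linarith
    have : 0 < tc := by linarith
    positivity
  obtain ⟨hfin, hmnu, hsupp, hf'⟩ := hNu u hu.memLp
  have hci : ∀ f : ℝ → ℝ, ∫ r, f r ∂(ENNReal.ofReal c • nu u) = c * ∫ r, f r ∂(nu u) := by
    intro f
    rw [integral_smul_measure, ENNReal.toReal_ofReal hc.le, smul_eq_mul]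
  have hcI : ∀ f : ℝ → ℝ, Integrable f (nu u) → Integrable f (ENNReal.ofReal c • nu u) :=
    fun f hf => hf.smul_measure ENNReal.ofReal_ne_top
  have hu2 := integrable_sq hu.memLp
  refine ⟨?_, ?_, ?_, ?_, ?_, ?_, ?_⟩
  · refine ⟨?_⟩
    rw [Measure.smul_apply, smul_eq_mul]
    exact ENNReal.mul_lt_top ENNReal.ofReal_lt_top (measure_lt_top _ _)
  · rw [Measure.smul_apply, smul_eq_mul, ENNReal.toReal_mul, hmnu, ENNReal.toReal_ofReal hc.le]
    have : mass u ≠ 0 := by linarith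
    rw [hcdef]
    field_simp
  · rw [Measure.smul_apply, hsupp, smul_zero]
  · intro r
    rw [Measure.smul_apply, nu_singleton, smul_zero]
  · apply hcI
    apply (nu_int hNu hu.memLp (meas_ind ?_)).1
    · obtain ⟨h1, -, -⟩ := (hB u G hu).1 0
      refine h1.congr (Eventually.of_forall fun x => ?_)
      simp only [zero_sub, norm_neg]
      ring
    · exact continuousOn_const.div continuousOn_id fun r hr => (mem_Ioi.1 hr).ne'
  · intro n
    apply hcI
    exact (nu_int hNu hu.memLp (meas_ind (continuousOn_id.pow n))).1 (hMom n).1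
  · intro h h1 B B1 hM hF
    obtain ⟨C, hC0, hgr, -⟩ := hT h h1 hM
    have hGr : Gr h := ⟨C, 3, fun r hr => by
      rw [abs_of_nonneg (hM.pos r hr).le]
      exact (hgr r hr.le).1⟩
    have hGr1 : Gr h1 := ⟨C, 2, fun r hr => (hgr r hr.le).2⟩
    have hC1 : C1 h h1 := ⟨hM.der, hM.cont1.mono Ioi_subset_Ici_self⟩
    have hhc : ContinuousOn h (Ioi 0) := hM.cont.mono Ioi_subset_Ici_self
    have hh1c : ContinuousOn h1 (Ioi 0) := hM.cont1.mono Ioi_subset_Ici_self
    have hBc : ContinuousOn B (Ioi 0) := fun r hr =>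
      (hF.c1.der r hr).continuousAt.continuousWithinAt
    have hid : ContinuousOn (fun r : ℝ => r) (Ioi 0) := continuousOn_id
    have hne : ∀ r ∈ Ioi (0 : ℝ), r ≠ 0 := fun r hr => (mem_Ioi.1 hr).ne'
    have hhne : ∀ r ∈ Ioi (0 : ℝ), h r ≠ 0 := fun r hr => (hM.pos r hr).ne'
    set F1 : ℝ → ℝ := fun r => B1 r + 2 * B r / r - (B r + h1 r / 2) ^ 2 / h r with hF1
    have hF1c : ContinuousOn F1 (Ioi 0) := by
      refine (hF.c1.cont.add ((continuousOn_const.mul hBc).div hid hne)).sub ?_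
      exact ((hBc.add (hh1c.div_const 2)).pow 2).div hhc hhne
    have hF1g : Gr1 F1 := by
      have e : F1 = fun r => (B1 r + 2 * (B r / r)) + -((B r + h1 r / 2) ^ 2 / h r) := by
        ext r
        simp only [hF1]
        ring
      rw [e]
      exact gr1_add (gr1_add hF.gr1 (gr1_cmul 2 (gr1_div hF.gr))) (gr1_neg hF.grq)
    have hF2c : ContinuousOn (fun r => h r / r) (Ioi 0) := hhc.div hid hne
    obtain ⟨hp1, hp2⟩ := hP u G hu hMom
    have i1 := (hp1 F1 hF1c hF1g).1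
    have i2 := (hp1 (fun r => h r / r) hF2c (gr1_div hGr)).1
    obtain ⟨i3, i4⟩ := hp2 h hhc hGr
    have k1 := hK u G hu hMom h h1 B B1 hM.pos hC1 hGr hGr1 hF
    have k2 := hE u lam G hsol hu hMom h h1 hC1 hGr hGr1
    obtain ⟨m1, m2, m3⟩ := hMp u G hu hMom h h1 hM
    have hKf : (∫ r, Kf h h1 B B1 r ∂(nu u)) =
        (∫ x, F1 ‖x‖ * ‖u x‖ ^ 2) - ∫ x, h ‖x‖ / ‖x‖ * ‖u x‖ ^ 2 := by
      have e : Kf h h1 B B1 = fun r => F1 r - h r / r := by
        ext r
        simp only [Kf, hF1]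
      rw [(nu_int hNu hu.memLp (f := Kf h h1 B B1) (meas_ind (by
        rw [e]; exact hF1c.sub hF2c))).2, ← integral_sub i1 i2]
      congr 1
      ext x
      rw [e]
      ring
    have hUbm : Measurable (Ub u) := (ub_antitone hB hu).measurable
    have hin : ∀ r, ∫ t, h r / max r t ∂(ENNReal.ofReal c • nu u) = c * (h r * Ub u r) := by
      intro r
      have hmr : Measurable (fun t : ℝ => h r / max r t) :=
        measurable_const.div (measurable_const.max measurable_id)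
      rw [hci, (hf' _ hmr).2]
      congr 1
      unfold Ub
      rw [← integral_const_mul]
      congr 1
      ext y
      ring
    have hD : Dh h (ENNReal.ofReal c • nu u) =
        c * (c * ∫ x, h ‖x‖ * ‖u x‖ ^ 2 * Ub u ‖x‖) := by
      unfold Dh
      simp only [hin]
      rw [hci]
      congr 1
      have hmm : Measurable ((Ioi (0 : ℝ)).indicator (fun r => c * (h r * Ub u r))) := by
        have e : (Ioi (0 : ℝ)).indicator (fun r => c * (h r * Ub u r)) =
            fun r => c * ((Ioi (0 : ℝ)).indicator h r * Ub u r) := by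
          ext r
          by_cases hr : r ∈ Ioi (0 : ℝ)
          · simp only [indicator_of_mem hr]
          · simp only [indicator_of_notMem hr]; ring
        rw [e]
        exact measurable_const.mul ((meas_ind hhc).mul hUbm)
      rw [(nu_int hNu hu.memLp hmm).2, ← integral_const_mul]
      congr 1
      ext x
      ring
    rw [hci, hKf, hD]
    have hκ : mass u / tc * (c * (c * ∫ x, h ‖x‖ * ‖u x‖ ^ 2 * Ub u ‖x‖)) =
        c * ∫ x, h ‖x‖ * ‖u x‖ ^ 2 * Ub u ‖x‖ := by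
      have h1 : mass u ≠ 0 := by linarith
      have h2 : tc ≠ 0 := by linarith
      rw [hcdef]
      field_simp
    rw [hκ, ← mul_add]
    apply mul_nonpos_of_nonneg_of_nonpos hc.le
    have hdr : ∫ x, h ‖x‖ * ‖dr G x‖ ^ 2 ≤ ∫ x, h ‖x‖ * g2 G x := by
      refine integral_mono i4 i3 fun x => ?_
      exact mul_le_mul_of_nonneg_left (dr_le G x) (mult_nonneg hM (norm_nonneg x))
    have hlu : lam * ∫ x, h ‖x‖ * ‖u x‖ ^ 2 ≤ 0 := by
      apply mul_nonpos_of_nonpos_of_nonneg hlam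
      exact integral_nonneg fun x => mul_nonneg (mult_nonneg hM (norm_nonneg x)) (by positivity)
    change (∫ x, F1 ‖x‖ * ‖u x‖ ^ 2) ≤ _ at k1
    linarith

end Pool.Agent.H76.HN
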