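import Pool.Agent.H99.HM.Main
import Pool.Agent.H99.HN.Targets

/-!
# Functions that are `C¹` off the origin (module H1C)
-/

namespace Pool.Agent.H76.HN

open MeasureTheory Set Filter Topology Real Pool.Agent.H99.HM Pool.Agent.H99.HN
open Pool.Agent.H49.HM Pool.Agent.H38.HM
open scoped ContDiff

/-- cut-off near the origin -/
noncomputable def eta (n : ℕ) (x : E3) : ℝ := 1 - cb (((n : ℝ) + 1) • x)

theorem contDiff_eta (n : ℕ) : ContDiff ℝ ∞ (eta n) := by
  unfold eta
  exact contDiff_const.sub (cb.contDiff.comp (contDiff_const_smul _))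

theorem eta_nonneg (n : ℕ) (x : E3) : 0 ≤ eta n x := by
  unfold eta
  have := cb.le_one (x := ((n : ℝ) + 1) • x)
  linarith

theorem eta_le_one (n : ℕ) (x : E3) : eta n x ≤ 1 := by
  unfold eta
  have := cb.nonneg (x := ((n : ℝ) + 1) • x)
  linarith

theorem eta_zero {n : ℕ} {x : E3} (hx : ‖x‖ ≤ 1 / ((n : ℝ) + 1)) : eta n x = 0 := by
  unfold eta
  rw [cb.one_of_mem_closedBall, sub_self]
  rw [mem_closedBall_zero_iff, norm_smul, Real.norm_eq_abs, abs_of_pos (by positivity)]
  change ((n : ℝ) + 1) * ‖x‖ ≤ 1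
  rw [le_div_iff₀ (by positivity)] at hx
  linarith

theorem eta_one {n : ℕ} {x : E3} (hx : 2 / ((n : ℝ) + 1) ≤ ‖x‖) : eta n x = 1 := by
  unfold eta
  rw [cb.zero_of_le_dist, sub_zero]
  rw [dist_zero_right, norm_smul, Real.norm_eq_abs, abs_of_pos (by positivity)]
  change 2 ≤ ((n : ℝ) + 1) * ‖x‖
  rw [div_le_iff₀ (by positivity)] at hx
  linarith

theorem eta_tendsto {x : E3} (hx : x ≠ 0) : ∀ᶠ n in atTop, eta n x = 1 ∧
    ∀ᶠ y in 𝓝 x, eta n y = 1 := by
  have hq : 0 < ‖x‖ := norm_pos_iff.2 hx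
  have h1 : Tendsto (fun n : ℕ => 2 * (1 / ((n : ℝ) + 1))) atTop (𝓝 (2 * 0)) :=
    tendsto_one_div_add_atTop_nhds_zero_nat.const_mul 2
  rw [mul_zero] at h1
  filter_upwards [h1.eventually (gt_mem_nhds hq)] with n hn
  have hn' : 2 / ((n : ℝ) + 1) < ‖x‖ := by
    rwa [mul_one_div] at hn
  refine ⟨eta_one hn'.le, ?_⟩
  have h2 : ∀ᶠ y : E3 in 𝓝 x, 2 / ((n : ℝ) + 1) < ‖y‖ :=
    continuous_norm.continuousAt.eventually (lt_mem_nhds hn')
  filter_upwards [h2] with y hy
  exact eta_one hy.le

theorem pd_eta : ∃ K : ℝ, 0 ≤ K ∧ ∀ (n : ℕ) (i : Fin 3) (x : E3), |pd i (eta n) x| ≤ K / ‖x‖ := by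
  have h1 : Continuous (fderiv ℝ (cb : E3 → ℝ)) :=
    (cb.contDiff (n := 1)).continuous_fderiv (by norm_num)
  have h2 : HasCompactSupport (fderiv ℝ (cb : E3 → ℝ)) := cb.hasCompactSupport.fderiv (𝕜 := ℝ)
  obtain ⟨C, hC⟩ := h1.bounded_above_of_compact_support h2
  have hC0 : 0 ≤ C := (norm_nonneg _).trans (hC 0)
  refine ⟨2 * C, by positivity, fun n i x => ?_⟩
  have h3 : HasFDerivAt (eta n) (-((fderiv ℝ (cb : E3 → ℝ) (((n : ℝ) + 1) • x)).comp
      (((n : ℝ) + 1) • ContinuousLinearMap.id ℝ E3))) x := by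
    have h5 : HasFDerivAt (fun y : E3 => ((n : ℝ) + 1) • y)
        (((n : ℝ) + 1) • ContinuousLinearMap.id ℝ E3) x :=
      (((n : ℝ) + 1) • ContinuousLinearMap.id ℝ E3).hasFDerivAt
    have h4 : HasFDerivAt (fun y : E3 => cb (((n : ℝ) + 1) • y))
        ((fderiv ℝ (cb : E3 → ℝ) (((n : ℝ) + 1) • x)).comp
      (((n : ℝ) + 1) • ContinuousLinearMap.id ℝ E3)) x := by
      have h6 : HasFDerivAt (cb : E3 → ℝ) (fderiv ℝ (cb : E3 → ℝ) (((n : ℝ) + 1) • x))
          (((n : ℝ) + 1) • x) :=
        ((cb.contDiff (n := 1)).differentiable (by norm_num)).differentiableAt.hasFDerivAt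
      exact HasFDerivAt.comp (f := fun y : E3 => ((n : ℝ) + 1) • y) x h6 h5
    exact h4.const_sub 1
  have e1 : pd i (eta n) x = -(((n : ℝ) + 1) * fderiv ℝ (cb : E3 → ℝ) (((n : ℝ) + 1) • x)
      (EuclideanSpace.single i (1 : ℝ))) := by
    unfold pd
    rw [h3.fderiv]
    simp
  rw [e1, abs_neg, abs_mul, abs_of_pos (by positivity : 0 < (n : ℝ) + 1)]
  by_cases hx : 2 < ‖((n : ℝ) + 1) • x‖
  · have h4 : ((n : ℝ) + 1) • x ∉ tsupport (cb : E3 → ℝ) := by
      rw [cb.tsupport_eq, mem_closedBall_zero_iff, not_le]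
      exact hx
    rw [fderiv_of_notMem_tsupport ℝ h4]
    simp only [zero_apply, abs_zero, mul_zero]
    positivity
  · have h5 : |fderiv ℝ (cb : E3 → ℝ) (((n : ℝ) + 1) • x) (EuclideanSpace.single i 1)| ≤ C := by
      have := (fderiv ℝ (cb : E3 → ℝ) (((n : ℝ) + 1) • x)).le_opNorm
        (EuclideanSpace.single i (1 : ℝ))
      rw [Real.norm_eq_abs] at this
      simp only [PiLp.norm_single, norm_one, mul_one] at this
      exact this.trans (hC _)
    rcases eq_or_ne x 0 with h0 | h0
    · subst h0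
      have h6 : fderiv ℝ (cb : E3 → ℝ) (((n : ℝ) + 1) • (0 : E3)) = 0 := by
        rw [smul_zero]
        have h7 : (cb : E3 → ℝ) =ᶠ[𝓝 0] fun _ => 1 := cb.eventuallyEq_one
        rw [h7.fderiv_eq]
        simp
      rw [h6]
      simp
    · have hq : 0 < ‖x‖ := norm_pos_iff.2 h0
      rw [not_lt, norm_smul, Real.norm_eq_abs, abs_of_pos (by positivity)] at hx
      rw [le_div_iff₀ hq]
      calc ((n : ℝ) + 1) * |fderiv ℝ (cb : E3 → ℝ) (((n : ℝ) + 1) • x)
            (EuclideanSpace.single i 1)| * ‖x‖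
          ≤ ((n : ℝ) + 1) * C * ‖x‖ := by gcongr
        _ = (((n : ℝ) + 1) * ‖x‖) * C := by ring
        _ ≤ 2 * C := by gcongr

theorem aesm_of_contOn {f : E3 → ℝ} (h : ContinuousOn f {x | x ≠ 0}) :
    AEStronglyMeasurable f volume := by
  have h3 := h.aestronglyMeasurable (μ := (volume : Measure E3))
    (measurableSet_singleton (0 : E3)).compl
  have h4 : (volume : Measure E3).restrict {x | x ≠ 0} = volume := by
    have : {x : E3 | x ≠ 0} = {0}ᶜ := rfl
    rw [this, restrict_compl_singleton]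
  rwa [h4] at h3

theorem isOpen_ne0 : IsOpen {x : E3 | x ≠ 0} := isOpen_compl_singleton

/-- `|φ|/|x|` is integrable for test functions `φ`. -/
theorem integrable_abs_div {φ : E3 → ℝ} (hφ : IsTest φ) (K : ℝ) (hK : 0 ≤ K) :
    Integrable (fun x : E3 => K / ‖x‖ * |φ x|) := by
  obtain ⟨C, R, hC, hR, hb, hz⟩ := test_bound hφ
  refine (integrable_inv_norm Pool.Agent.H99.HM.Main.polar (K * C) R).mono' ?_ ?_
  · have h1 : Measurable (fun x => |φ x|) := hφ.1.continuous.abs.measurable
    exact ((measurable_const.div measurable_norm).mul h1).aestronglyMeasurable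
  · refine Eventually.of_forall fun x => ?_
    rw [Real.norm_eq_abs, abs_of_nonneg (by positivity)]
    by_cases hx : ‖x‖ < R
    · rw [indicator_of_mem (mem_Iio.2 hx)]
      calc K / ‖x‖ * |φ x| ≤ K / ‖x‖ * C := by
            gcongr
            exact hb x
        _ = K * C / ‖x‖ := by ring
    · rw [hz x (not_lt.1 hx), indicator_of_notMem (by simpa using hx)]
      simp

theorem h1c_real {F : E3 → ℝ} {C : ℝ} (hF : ContDiffOn ℝ 1 F {x | x ≠ 0})
    (hFb : ∀ x, x ≠ 0 → |F x| ≤ C ∧ ∀ i, |pd i F x| ≤ C) {φ : E3 → ℝ} (hφ : IsTest φ)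
    (i : Fin 3) : ∫ x, F x * pd i φ x = - ∫ x, pd i F x * φ x := by
  obtain ⟨K, hK0, hK⟩ := pd_eta
  have hC0 : 0 ≤ C := by
    have hne : (EuclideanSpace.single 0 (1 : ℝ) : E3) ≠ 0 := by
      intro h
      have := congrArg norm h
      simp at this
    exact (abs_nonneg _).trans (hFb _ hne).1
  have hae : ∀ᵐ x : E3, x ≠ 0 := ae_ne_zero
  have hFd : ∀ x : E3, x ≠ 0 → DifferentiableAt ℝ F x := fun x hx =>
    (hF.differentiableOn (by norm_num)).differentiableAt (isOpen_ne0.mem_nhds hx)
  have hFm : AEStronglyMeasurable F volume := aesm_of_contOn hF.continuousOn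
  have hpFm : AEStronglyMeasurable (pd i F) volume := by
    apply aesm_of_contOn
    have h1 := hF.continuousOn_fderiv_of_isOpen isOpen_ne0 (by norm_num)
    exact h1.clm_apply continuousOn_const
  -- pieces
  set f : ℕ → E3 → ℝ := fun n x => F x * eta n x with hf
  have hfd : ∀ n, Differentiable ℝ (f n) := by
    intro n x
    rcases eq_or_ne x 0 with h0 | h0
    · subst h0
      have h1 : f n =ᶠ[𝓝 0] fun _ => 0 := by
        filter_upwards [Metric.ball_mem_nhds (0 : E3) (show (0 : ℝ) < 1 / ((n : ℝ) + 1) by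
          positivity)] with y hy
        rw [mem_ball_zero_iff] at hy
        simp only [hf, eta_zero hy.le, mul_zero]
      exact h1.symm.differentiableAt_iff.1 (differentiableAt_const _)
    · exact (hFd x h0).mul ((contDiff_eta n).differentiable (by simp) x)
  have hfpd : ∀ n x, x ≠ 0 → fderiv ℝ (f n) x (EuclideanSpace.single i 1) =
      pd i F x * eta n x + F x * pd i (eta n) x := by
    intro n x hx
    have h1 := ((hFd x hx).hasFDerivAt).mul
      ((contDiff_eta n).differentiable (by simp) x).hasFDerivAt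
    have h2 : HasFDerivAt (f n) _ x := h1
    rw [h2.fderiv]
    simp only [add_apply, smul_apply, smul_eq_mul, pd]
    ring
  obtain ⟨Cφ, hCφ⟩ := hφ.2.exists_bound_of_continuous hφ.1.continuous
  have hpc : Continuous (pd i φ) := (contDiff_pd hφ i).1.continuous
  have hpint : Integrable (pd i φ) := hpc.integrable_of_hasCompactSupport (contDiff_pd hφ i).2
  have hφint : Integrable φ := hφ.1.continuous.integrable_of_hasCompactSupport hφ.2
  -- dominating functions
  have hD : Integrable (fun x => C * |φ x| + C * (K / ‖x‖ * |φ x|)) :=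
    (hφint.abs.const_mul C).add ((integrable_abs_div hφ K hK0).const_mul C)
  have hem : ∀ n, AEStronglyMeasurable (eta n) volume := fun n =>
    (contDiff_eta n).continuous.aestronglyMeasurable
  have hpem : ∀ n, AEStronglyMeasurable (pd i (eta n)) volume := by
    intro n
    have h1 : Continuous (fderiv ℝ (eta n)) := (contDiff_eta n).continuous_fderiv (by simp)
    exact (h1.clm_apply continuous_const).aestronglyMeasurable
  have hm1 : ∀ n, AEStronglyMeasurable
      (fun x => (pd i F x * eta n x + F x * pd i (eta n) x) * φ x) volume := fun n =>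
    ((hpFm.mul (hem n)).add (hFm.mul (hpem n))).mul hφ.1.continuous.aestronglyMeasurable
  have hb1 : ∀ n, ∀ᵐ x, ‖(pd i F x * eta n x + F x * pd i (eta n) x) * φ x‖ ≤
      C * |φ x| + C * (K / ‖x‖ * |φ x|) := by
    intro n
    filter_upwards [hae] with x hx
    rw [norm_mul, Real.norm_eq_abs, Real.norm_eq_abs]
    have h1 : |pd i F x * eta n x + F x * pd i (eta n) x| ≤ C + C * (K / ‖x‖) := by
      refine (abs_add_le _ _).trans ?_
      rw [abs_mul, abs_mul, abs_of_nonneg (eta_nonneg n x)]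
      have h2 := (hFb x hx).1
      have h3 := (hFb x hx).2 i
      have h4 := eta_le_one n x
      have h5 := eta_nonneg n x
      have h6 := hK n i x
      have h7 : |pd i F x| * eta n x ≤ C * 1 := by gcongr
      have h8 : |F x| * |pd i (eta n) x| ≤ C * (K / ‖x‖) := by gcongr
      linarith
    calc |pd i F x * eta n x + F x * pd i (eta n) x| * |φ x| ≤ (C + C * (K / ‖x‖)) * |φ x| := by
          gcongr
      _ = _ := by ring
  have hi1 : ∀ n, Integrable (fun x => (pd i F x * eta n x + F x * pd i (eta n) x) * φ x) :=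
    fun n => hD.mono' (hm1 n) (hb1 n)
  have hm2 : ∀ n, AEStronglyMeasurable (fun x => f n x * pd i φ x) volume := fun n =>
    (hFm.mul (hem n)).mul hpc.aestronglyMeasurable
  have hb2 : ∀ n, ∀ᵐ x, ‖f n x * pd i φ x‖ ≤ C * |pd i φ x| := by
    intro n
    filter_upwards [hae] with x hx
    rw [norm_mul, Real.norm_eq_abs, Real.norm_eq_abs]
    have h1 : |f n x| ≤ C * 1 := by
      simp only [hf]
      rw [abs_mul, abs_of_nonneg (eta_nonneg n x)]
      have h2 := (hFb x hx).1
      have h4 := eta_le_one n x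
      have h5 := eta_nonneg n x
      gcongr
    rw [mul_one] at h1
    gcongr
  have hi2 : ∀ n, Integrable (fun x => f n x * pd i φ x) := fun n =>
    (hpint.abs.const_mul C).mono' (hm2 n) (hb2 n)
  have hm3 : ∀ n, AEStronglyMeasurable (fun x => f n x * φ x) volume := fun n =>
    (hFm.mul (hem n)).mul hφ.1.continuous.aestronglyMeasurable
  have hi3 : ∀ n, Integrable (fun x => f n x * φ x) := by
    intro n
    refine (hφint.abs.const_mul C).mono' (hm3 n) ?_
    filter_upwards [hae] with x hx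
    rw [norm_mul, Real.norm_eq_abs, Real.norm_eq_abs]
    have h1 : |f n x| ≤ C * 1 := by
      simp only [hf]
      rw [abs_mul, abs_of_nonneg (eta_nonneg n x)]
      have h2 := (hFb x hx).1
      have h4 := eta_le_one n x
      have h5 := eta_nonneg n x
      gcongr
    rw [mul_one] at h1
    gcongr
  have hi1' : ∀ n, Integrable (fun x => fderiv ℝ (f n) x (EuclideanSpace.single i 1) * φ x) := by
    intro n
    refine (hi1 n).congr ?_
    filter_upwards [hae] with x hx
    rw [hfpd n x hx]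
  have hparts : ∀ n, ∫ x, f n x * pd i φ x =
      - ∫ x, (pd i F x * eta n x + F x * pd i (eta n) x) * φ x := by
    intro n
    have h1 := integral_mul_fderiv_eq_neg_fderiv_mul_of_integrable (μ := (volume : Measure E3))
      (f := f n) (g := φ) (v := EuclideanSpace.single i 1)
      (hi1' n) (hi2 n) (hi3 n) (fun x _ => hfd n x)
      (fun x _ => hφ.1.differentiable (by simp) x)
    have h2 : ∫ x, fderiv ℝ (f n) x (EuclideanSpace.single i 1) * φ x =
        ∫ x, (pd i F x * eta n x + F x * pd i (eta n) x) * φ x := by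
      apply integral_congr_ae
      filter_upwards [hae] with x hx
      rw [hfpd n x hx]
    rw [h2] at h1
    exact h1
  have hpe0 : ∀ {x : E3}, x ≠ 0 → ∀ᶠ n in atTop, eta n x = 1 ∧ pd i (eta n) x = 0 := by
    intro x hx
    filter_upwards [eta_tendsto hx] with n hn
    refine ⟨hn.1, ?_⟩
    have h7 : eta n =ᶠ[𝓝 x] fun _ => 1 := hn.2
    unfold pd
    rw [h7.fderiv_eq]
    simp
  have lim1 : Tendsto (fun n => ∫ x, (pd i F x * eta n x + F x * pd i (eta n) x) * φ x) atTop
      (𝓝 (∫ x, pd i F x * φ x)) := by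
    refine tendsto_integral_of_dominated_convergence _ hm1 hD hb1 ?_
    filter_upwards [hae] with x hx
    refine tendsto_const_nhds.congr' ?_
    filter_upwards [hpe0 hx] with n hn
    rw [hn.1, hn.2]
    ring
  have lim2 : Tendsto (fun n => ∫ x, f n x * pd i φ x) atTop (𝓝 (∫ x, F x * pd i φ x)) := by
    refine tendsto_integral_of_dominated_convergence _ hm2 (hpint.abs.const_mul C) hb2 ?_
    filter_upwards [hae] with x hx
    refine tendsto_const_nhds.congr' ?_
    filter_upwards [hpe0 hx] with n hn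
    simp only [hf]
    rw [hn.1]
    ring
  exact tendsto_nhds_unique (lim2.congr hparts) lim1.neg

theorem h1c : T_h1c := by
  intro F C hF hFs hFb
  have hFm : AEStronglyMeasurable F volume := aesm_of_contOn hF.continuousOn
  have hpFm : ∀ i, AEStronglyMeasurable (pd i F) volume := by
    intro i
    apply aesm_of_contOn
    have h1 := hF.continuousOn_fderiv_of_isOpen isOpen_ne0 (by norm_num)
    exact h1.clm_apply continuousOn_const
  have hmem : ∀ g : E3 → ℝ, AEStronglyMeasurable g volume → (∀ x, x ≠ 0 → |g x| ≤ C) →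
      (∀ x, x ∉ tsupport F → g x = 0) → MemLp (fun x => (g x : ℂ)) 2 volume := by
    intro g hg hb hz
    have hgm : AEStronglyMeasurable (fun x => (g x : ℂ)) volume :=
      Complex.continuous_ofReal.comp_aestronglyMeasurable hg
    rw [memLp_two_iff_integrable_sq_norm hgm]
    have h1 : Integrable ((tsupport F).indicator fun _ => C ^ 2) := by
      rw [integrable_indicator_iff (isClosed_tsupport F).measurableSet]
      exact integrableOn_const hFs.isCompact.measure_lt_top.ne
    refine h1.mono' (hgm.norm.pow 2) ?_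
    filter_upwards [ae_ne_zero] with x hx
    rw [Real.norm_eq_abs, abs_of_nonneg (by positivity), Complex.norm_real, Real.norm_eq_abs]
    by_cases hxs : x ∈ tsupport F
    · rw [indicator_of_mem hxs]
      have := hb x hx
      gcongr
    · rw [indicator_of_notMem hxs, hz x hxs]
      simp
  refine ⟨hmem F hFm (fun x hx => (hFb x hx).1) fun x hx => image_eq_zero_of_notMem_tsupport hx,
    fun i => hmem (pd i F) (hpFm i) (fun x hx => (hFb x hx).2 i) fun x hx => ?_, ?_⟩
  · unfold pd
    rw [fderiv_of_notMem_tsupport ℝ hx]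
    simp
  · intro i φ hφ
    have h1 := h1c_real hF hFb hφ i
    have e1 : ∫ x, (F x : ℂ) * (pd i φ x : ℂ) = ((∫ x, F x * pd i φ x : ℝ) : ℂ) := by
      rw [← integral_complex_ofReal]
      congr 1
      ext x
      push_cast
      rfl
    have e2 : ∫ x, (pd i F x : ℂ) * (φ x : ℂ) = ((∫ x, pd i F x * φ x : ℝ) : ℂ) := by
      rw [← integral_complex_ofReal]
      congr 1
      ext x
      push_cast
      rfl
    rw [e1, e2, h1]
    push_cast
    rfl

end Pool.Agent.H76.HN
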