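import Pool.Agent.H99.HM.Main
import Pool.Agent.H99.HN.Targets

/-!
# Hardy's inequality (module HARDY)
-/

namespace Pool.Agent.H76.HN

open MeasureTheory Set Filter Topology Real Pool.Agent.H99.HM Pool.Agent.H99.HN
open Pool.Agent.H49.HM
open scoped ContDiff

/-- the weight -/
noncomputable def wt (a : E3) (ε : ℝ) (x : E3) : ℝ := 1 / (‖x - a‖ ^ 2 + ε)

theorem wt_pos (a : E3) {ε : ℝ} (hε : 0 < ε) (x : E3) : 0 < wt a ε x := by
  unfold wt; positivity

theorem contDiff_wt (a : E3) {ε : ℝ} (hε : 0 < ε) : ContDiff ℝ ∞ (wt a ε) := by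
  unfold wt
  apply ContDiff.div contDiff_const
  · exact ((contDiff_id.sub contDiff_const).norm_sq ℝ).add contDiff_const
  · intro x
    positivity

/-- the field -/
noncomputable def fld (a : E3) (ε : ℝ) (i : Fin 3) (x : E3) : ℝ := (x i - a i) * wt a ε x

theorem contDiff_coord (i : Fin 3) : ContDiff ℝ ∞ (fun x : E3 => x i) :=
  (EuclideanSpace.proj (𝕜 := ℝ) i).contDiff

theorem contDiff_fld (a : E3) {ε : ℝ} (hε : 0 < ε) (i : Fin 3) : ContDiff ℝ ∞ (fld a ε i) := by
  unfold fld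
  exact ((contDiff_coord i).sub contDiff_const).mul (contDiff_wt a hε)

theorem norm_sq_sum (x a : E3) : ‖x - a‖ ^ 2 = ∑ i, (x i - a i) ^ 2 := by
  rw [EuclideanSpace.norm_sq_eq]
  simp [Real.norm_eq_abs, sq_abs]

theorem hasFDerivAt_q (a x : E3) : HasFDerivAt (fun y : E3 => ‖y - a‖ ^ 2)
    ((2 : ℝ) • innerSL ℝ (x - a)) x := by
  have h1 : HasFDerivAt (fun y : E3 => y - a) (ContinuousLinearMap.id ℝ E3) x :=
    (hasFDerivAt_id x).sub_const a
  have h2 := h1.norm_sq
  refine h2.congr_fderiv ?_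
  ext v
  simp

theorem pd_fld (a : E3) {ε : ℝ} (hε : 0 < ε) (i : Fin 3) (x : E3) :
    pd i (fld a ε i) x = wt a ε x - 2 * (x i - a i) ^ 2 * wt a ε x ^ 2 := by
  have hne : ‖x - a‖ ^ 2 + ε ≠ 0 := by positivity
  have h1 : HasFDerivAt (fun y : E3 => y i - a i) (EuclideanSpace.proj (𝕜 := ℝ) i) x :=
    (EuclideanSpace.proj (𝕜 := ℝ) i : E3 →L[ℝ] ℝ).hasFDerivAt.sub_const (a i)
  have h2 : HasFDerivAt (fun y : E3 => ‖y - a‖ ^ 2 + ε) ((2 : ℝ) • innerSL ℝ (x - a)) x :=
    (hasFDerivAt_q a x).add_const ε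
  have h3 : HasFDerivAt (fun y : E3 => (‖y - a‖ ^ 2 + ε)⁻¹)
      ((-((‖x - a‖ ^ 2 + ε) ^ 2)⁻¹) • ((2 : ℝ) • innerSL ℝ (x - a))) x :=
    (hasDerivAt_inv hne).comp_hasFDerivAt x h2
  have h4 : HasFDerivAt (fun y : E3 => (y i - a i) * (‖y - a‖ ^ 2 + ε)⁻¹) _ x := h1.mul h3
  have h5 : fld a ε i = fun y : E3 => (y i - a i) * (‖y - a‖ ^ 2 + ε)⁻¹ := by
    ext y
    simp [fld, wt]
  unfold pd
  rw [h5, h4.fderiv]
  simp only [ContinuousLinearMap.add_apply, ContinuousLinearMap.smul_apply, smul_eq_mul,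
    innerSL_apply_apply, wt]
  have h6 : inner ℝ (x - a) (EuclideanSpace.single i (1 : ℝ)) = x i - a i := by
    rw [EuclideanSpace.inner_single_right]
    simp
  rw [h6]
  have h7 : (EuclideanSpace.proj (𝕜 := ℝ) i : E3 →L[ℝ] ℝ) (EuclideanSpace.single i (1 : ℝ)) = 1 := by
    simp
  rw [h7]
  field_simp
  ring

theorem cs_sq {φ : E3 → ℝ} (hφ : IsTest φ) : HasCompactSupport (fun x => φ x ^ 2) :=
  hφ.2.comp_left (g := fun y : ℝ => y ^ 2) (by simp)

theorem hardy_test {φ : E3 → ℝ} (hφ : IsTest φ) (a : E3) {ε : ℝ} (hε : 0 < ε) :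
    ∫ x, wt a ε x * φ x ^ 2 ≤ 4 * ∫ x, ∑ i, pd i φ x ^ 2 := by
  have hφc := hφ.1.continuous
  have hwc := (contDiff_wt a hε).continuous
  have hpc : ∀ i, Continuous (pd i φ) := fun i => (contDiff_pd hφ i).1.continuous
  have hfc : ∀ i, Continuous (fld a ε i) := fun i => (contDiff_fld a hε i).continuous
  have hdd : ∀ i, Continuous (pd i (fld a ε i)) := by
    intro i
    have : pd i (fld a ε i) = fun x => wt a ε x - 2 * (x i - a i) ^ 2 * wt a ε x ^ 2 := by
      ext x; exact pd_fld a hε i x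
    rw [this]
    have := (contDiff_coord i).continuous
    fun_prop
  have hsq : HasCompactSupport (fun x => φ x ^ 2) := cs_sq hφ
  have i1 : ∀ i, Integrable (fun x => φ x ^ 2 * pd i (fld a ε i) x) := fun i =>
    ((hφc.pow 2).mul (hdd i)).integrable_of_hasCompactSupport hsq.mul_right
  have i2 : ∀ i, Integrable (fun x => 2 * φ x * pd i φ x * fld a ε i x) := by
    intro i
    apply Continuous.integrable_of_hasCompactSupport
    · exact ((continuous_const.mul hφc).mul (hpc i)).mul (hfc i)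
    · have h1 : HasCompactSupport (fun x => pd i φ x) := (contDiff_pd hφ i).2
      exact (h1.mul_left (f := fun x => 2 * φ x)).mul_right
  have i3 : ∀ i, Integrable (fun x => φ x ^ 2 * fld a ε i x) := fun i =>
    ((hφc.pow 2).mul (hfc i)).integrable_of_hasCompactSupport hsq.mul_right
  have i4 : Integrable (fun x => wt a ε x * φ x ^ 2) :=
    (hwc.mul (hφc.pow 2)).integrable_of_hasCompactSupport hsq.mul_left
  have i5 : ∀ i, Integrable (fun x => pd i φ x ^ 2) := fun i =>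
    ((hpc i).pow 2).integrable_of_hasCompactSupport (cs_sq (contDiff_pd hφ i))
  have hsqd : ∀ i x, fderiv ℝ (fun x => φ x ^ 2) x (EuclideanSpace.single i 1) =
      2 * φ x * pd i φ x := by
    intro i x
    have h1 : HasFDerivAt φ (fderiv ℝ φ x) x := (hφ.1.differentiable (by simp) x).hasFDerivAt
    have h2 : HasFDerivAt (fun x => φ x ^ 2) _ x := h1.pow 2
    rw [h2.fderiv]
    simp [pd]
  have hparts : ∀ i, (∫ x, φ x ^ 2 * pd i (fld a ε i) x) =
      - ∫ x, 2 * φ x * pd i φ x * fld a ε i x := by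
    intro i
    have h1 := integral_mul_fderiv_eq_neg_fderiv_mul_of_integrable (μ := (volume : Measure E3))
      (f := fun x => φ x ^ 2) (g := fld a ε i) (v := EuclideanSpace.single i 1)
      (by simp only [hsqd]; exact i2 i) (i1 i) (i3 i)
      (fun x _ => ((hφ.1.differentiable (by simp)) x).pow 2)
      (fun x _ => (contDiff_fld a hε i).differentiable (by simp) x)
    simp only [hsqd] at h1
    exact h1
  have i12 : ∀ i, Integrable (fun x => φ x ^ 2 * pd i (fld a ε i) x +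
      2 * φ x * pd i φ x * fld a ε i x) := fun i => (i1 i).add (i2 i)
  have hsum : ∫ x, ∑ i, (φ x ^ 2 * pd i (fld a ε i) x + 2 * φ x * pd i φ x * fld a ε i x) = 0 := by
    rw [integral_finsetSum _ fun i _ => i12 i]
    apply Finset.sum_eq_zero
    intro i _
    rw [integral_add (i1 i) (i2 i), hparts i]
    ring
  have hpt : ∀ x, (1 / 2 : ℝ) * (wt a ε x * φ x ^ 2) - 2 * ∑ i, pd i φ x ^ 2 ≤
      ∑ i, (φ x ^ 2 * pd i (fld a ε i) x + 2 * φ x * pd i φ x * fld a ε i x) := by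
    intro x
    have hw := wt_pos a hε x
    have hq := norm_sq_sum x a
    have e1 : ‖x - a‖ ^ 2 * wt a ε x ≤ 1 := by
      unfold wt
      rw [mul_one_div, div_le_one (by positivity)]
      linarith
    simp only [pd_fld a hε, fld, Fin.sum_univ_three] at hq ⊢
    set w := wt a ε x
    set p0 := pd 0 φ x
    set p1 := pd 1 φ x
    set p2 := pd 2 φ x
    set y0 := x 0 - a 0
    set y1 := x 1 - a 1
    set y2 := x 2 - a 2
    set f := φ x
    rw [hq] at e1
    have e2 : (y0 ^ 2 + y1 ^ 2 + y2 ^ 2) * w ^ 2 * f ^ 2 ≤ w * f ^ 2 := by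
      have : 0 ≤ w * f ^ 2 := by positivity
      nlinarith
    nlinarith [sq_nonneg (p0 + f * (y0 * w) / 2), sq_nonneg (p1 + f * (y1 * w) / 2),
      sq_nonneg (p2 + f * (y2 * w) / 2)]
  have i6 : Integrable (fun x => ∑ i, pd i φ x ^ 2) := integrable_finsetSum _ fun i _ => i5 i
  have i7 : Integrable (fun x => (1 / 2 : ℝ) * (wt a ε x * φ x ^ 2) - 2 * ∑ i, pd i φ x ^ 2) :=
    (i4.const_mul (1 / 2)).sub (i6.const_mul 2)
  have hle := integral_mono i7 (integrable_finsetSum _ fun i _ => i12 i) hpt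
  rw [integral_sub (i4.const_mul (1 / 2)) (i6.const_mul 2), integral_const_mul,
    integral_const_mul, hsum] at hle
  linarith

theorem wt_le (a : E3) {ε : ℝ} (hε : 0 < ε) (x : E3) : wt a ε x ≤ 1 / ε := by
  unfold wt
  apply one_div_le_one_div_of_le hε
  have : 0 ≤ ‖x - a‖ ^ 2 := by positivity
  linarith

theorem hardy_wt {u : E3 → ℂ} {G : Fin 3 → E3 → ℂ} (hu : IsH1 u G) (a : E3) {ε : ℝ} (hε : 0 < ε) :
    Integrable (fun x => wt a ε x * ‖u x‖ ^ 2) ∧
    ∫ x, wt a ε x * ‖u x‖ ^ 2 ≤ 4 * ∫ x, g2 G x := by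
  obtain ⟨φ, ψ, htest, hlim, hlimG⟩ := Pool.Agent.H99.HM.Main.dens u G hu
  set w : ℕ → E3 → ℂ := fun n x => (φ n x : ℂ) + (ψ n x : ℂ) * Complex.I with hw
  have hwm : ∀ n, MemLp (w n) 2 volume := fun n => memLp_test (htest n).1 (htest n).2
  have hbm : AEStronglyMeasurable (wt a ε) volume :=
    (contDiff_wt a hε).continuous.aestronglyMeasurable
  have hbb : ∀ x, |wt a ε x| ≤ 1 / ε := fun x => by
    rw [abs_of_pos (wt_pos a hε x)]
    exact wt_le a hε x
  have hwint : ∀ g : E3 → ℂ, MemLp g 2 volume → Integrable (fun x => wt a ε x * ‖g x‖ ^ 2) := by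
    intro g hg
    refine ((integrable_sq hg).const_mul (1 / ε)).mono' (hbm.mul (integrable_sq hg).1) ?_
    refine Eventually.of_forall fun x => ?_
    rw [norm_mul, Real.norm_eq_abs, norm_pow, norm_norm]
    exact mul_le_mul_of_nonneg_right (hbb x) (by positivity)
  refine ⟨hwint u hu.memLp, ?_⟩
  have h1 := weight_tendsto (Eventually.of_forall hbb) hbm hu.memLp hwm hlim
  have hGlim : ∀ i, Tendsto (fun n => ∫ x, (pd i (φ n) x ^ 2 + pd i (ψ n) x ^ 2)) atTop
      (𝓝 (∫ x, ‖G i x‖ ^ 2)) := by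
    intro i
    have h1 := weight_tendsto (b := fun _ => (1 : ℝ)) (C := 1)
      (Eventually.of_forall fun x => by simp) aestronglyMeasurable_const
      (hu.memLp_grad i) (fun n => memLp_test (contDiff_pd (htest n).1 i)
        (contDiff_pd (htest n).2 i)) (hlimG i)
    simp only [one_mul, norm_sq_test] at h1
    exact h1
  have hR : Tendsto (fun n => 4 * ∑ i, ∫ x, (pd i (φ n) x ^ 2 + pd i (ψ n) x ^ 2)) atTop
      (𝓝 (4 * ∑ i, ∫ x, ‖G i x‖ ^ 2)) :=
    (tendsto_finsetSum _ fun i _ => hGlim i).const_mul 4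
  have hg2 : ∫ x, g2 G x = ∑ i, ∫ x, ‖G i x‖ ^ 2 := by
    unfold g2
    exact integral_finsetSum _ fun i _ => integrable_sq (hu.memLp_grad i)
  rw [hg2]
  refine le_of_tendsto_of_tendsto' h1 hR fun n => ?_
  have hpi : ∀ (f : E3 → ℝ), IsTest f → ∀ i, Integrable (fun x => pd i f x ^ 2) := fun f hf i =>
    ((contDiff_pd hf i).1.continuous.pow 2).integrable_of_hasCompactSupport
      (cs_sq (contDiff_pd hf i))
  have hfi : ∀ (f : E3 → ℝ), IsTest f → Integrable (fun x => wt a ε x * f x ^ 2) := fun f hf =>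
    ((contDiff_wt a hε).continuous.mul
      (hf.1.continuous.pow 2)).integrable_of_hasCompactSupport (cs_sq hf).mul_left
  have e1 : ∫ x, wt a ε x * ‖w n x‖ ^ 2 =
      (∫ x, wt a ε x * φ n x ^ 2) + ∫ x, wt a ε x * ψ n x ^ 2 := by
    rw [← integral_add (hfi _ (htest n).1) (hfi _ (htest n).2)]
    congr 1
    ext x
    simp only [hw, norm_sq_test]
    ring
  have e2 : (∑ i, ∫ x, (pd i (φ n) x ^ 2 + pd i (ψ n) x ^ 2)) =
      (∫ x, ∑ i, pd i (φ n) x ^ 2) + ∫ x, ∑ i, pd i (ψ n) x ^ 2 := by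
    rw [integral_finsetSum _ fun i _ => hpi _ (htest n).1 i,
      integral_finsetSum _ fun i _ => hpi _ (htest n).2 i, ← Finset.sum_add_distrib]
    exact Finset.sum_congr rfl fun i _ => integral_add (hpi _ (htest n).1 i) (hpi _ (htest n).2 i)
  rw [e1, e2]
  have h3 := hardy_test (htest n).1 a hε
  have h4 := hardy_test (htest n).2 a hε
  linarith

theorem ae_ne (a : E3) : ∀ᵐ x : E3, x ≠ a := by
  have : (volume : Measure E3) {a} = 0 := measure_singleton _
  rw [ae_iff]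
  simpa using this

theorem hardy : T_hardy := by
  intro u G hu a
  set B : ℝ := 4 * ∫ x, g2 G x with hB
  have hB0 : 0 ≤ B := by
    have : 0 ≤ ∫ x, g2 G x := integral_nonneg fun x => by
      unfold g2
      exact Finset.sum_nonneg fun i _ => by positivity
    positivity
  have hpos : ∀ k : ℕ, (0 : ℝ) < 1 / ((k : ℝ) + 1) := fun k => by positivity
  have hum : AEStronglyMeasurable (fun x => ‖u x‖ ^ 2 / ‖x - a‖ ^ 2) volume := by
    have h1 : AEStronglyMeasurable (fun x : E3 => (‖x - a‖ ^ 2)⁻¹) volume := by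
      have : Measurable (fun x : E3 => ‖x - a‖) := (measurable_id.sub_const a).norm
      exact (this.pow_const 2).inv.aestronglyMeasurable
    have h2 := (integrable_sq hu.memLp).1.mul h1
    exact h2
  have hlint : ∫⁻ x, ENNReal.ofReal (‖u x‖ ^ 2 / ‖x - a‖ ^ 2) ≤ ENNReal.ofReal B := by
    have hconv := lintegral_tendsto_of_tendsto_of_monotone
      (f := fun k x => ENNReal.ofReal (wt a (1 / ((k : ℝ) + 1)) x * ‖u x‖ ^ 2))
      (F := fun x => ENNReal.ofReal (‖u x‖ ^ 2 / ‖x - a‖ ^ 2)) (μ := (volume : Measure E3))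
      (fun k => (hardy_wt hu a (hpos k)).1.1.aemeasurable.ennreal_ofReal)
      (Eventually.of_forall fun x => ?_) ?_
    · refine le_of_tendsto' hconv fun k => ?_
      rw [← ofReal_integral_eq_lintegral_ofReal (hardy_wt hu a (hpos k)).1
        (Eventually.of_forall fun x => by
          have := wt_pos a (hpos k) x
          show 0 ≤ wt a (1 / ((k : ℝ) + 1)) x * ‖u x‖ ^ 2
          positivity)]
      exact ENNReal.ofReal_le_ofReal (hardy_wt hu a (hpos k)).2
    · intro k l hkl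
      apply ENNReal.ofReal_le_ofReal
      have h1 : (k : ℝ) ≤ l := by exact_mod_cast hkl
      have h2 : wt a (1 / ((k : ℝ) + 1)) x ≤ wt a (1 / ((l : ℝ) + 1)) x := by
        unfold wt
        gcongr
      exact mul_le_mul_of_nonneg_right h2 (by positivity)
    · filter_upwards [ae_ne a] with x hx
      refine (ENNReal.continuous_ofReal.tendsto _).comp ?_
      have hq : 0 < ‖x - a‖ := norm_pos_iff.2 (sub_ne_zero.2 hx)
      have h1 : Tendsto (fun k : ℕ => wt a (1 / ((k : ℝ) + 1)) x) atTop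
          (𝓝 (1 / (‖x - a‖ ^ 2 + 0))) := by
        unfold wt
        exact tendsto_const_nhds.div (tendsto_const_nhds.add tendsto_one_div_add_atTop_nhds_zero_nat)
          (by positivity)
      have h2 := h1.mul_const (‖u x‖ ^ 2)
      rw [add_zero, one_div, inv_mul_eq_div] at h2
      exact h2
  have hI1 : Integrable (fun x => ‖u x‖ ^ 2 / ‖x - a‖ ^ 2) := by
    refine ⟨hum, ?_⟩
    rw [hasFiniteIntegral_iff_ofReal (Eventually.of_forall fun x => by
      show 0 ≤ ‖u x‖ ^ 2 / ‖x - a‖ ^ 2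
      positivity)]
    exact lt_of_le_of_lt hlint ENNReal.ofReal_lt_top
  refine ⟨hI1, ?_⟩
  rw [integral_eq_lintegral_of_nonneg_ae (Eventually.of_forall fun x => by
    show 0 ≤ ‖u x‖ ^ 2 / ‖x - a‖ ^ 2
    positivity) hum]
  exact ENNReal.toReal_le_of_le_ofReal hB0 hlint

end Pool.Agent.H76.HN
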