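import Pool.Agent.H99.HM.Main
import Pool.Agent.H99.HN.Targets

/-!
# Bounds for the Hartree potential (module HB)
-/

namespace Pool.Agent.H76.HN

open MeasureTheory Set Filter Topology Real Pool.Agent.H99.HM Pool.Agent.H99.HN
open Pool.Agent.H49.HM
open scoped ContDiff

theorem div_le_sq {A d t : ℝ} (hA : 0 ≤ A) (hd : 0 ≤ d) (ht : 0 < t) :
    A / d ≤ t * (A / d ^ 2) + A / (4 * t) := by
  rcases eq_or_lt_of_le hd with h | h
  · rw [← h]
    simp only [div_zero]
    positivity
  · have e : t * (A / d ^ 2) + A / (4 * t) - A / d = A * (2 * t - d) ^ 2 / (4 * t * d ^ 2) := by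
      field_simp
      ring
    have : 0 ≤ A * (2 * t - d) ^ 2 / (4 * t * d ^ 2) := by positivity
    linarith

theorem ae_ne' (a : E3) : ∀ᵐ x : E3, x ≠ a := by
  have : (volume : Measure E3) {a} = 0 := measure_singleton _
  rw [ae_iff]
  simpa using this

theorem aesm_div {u : E3 → ℂ} (hu : MemLp u 2 volume) (x : E3) :
    AEStronglyMeasurable (fun y => ‖u y‖ ^ 2 / ‖x - y‖) volume := by
  have h1 : AEStronglyMeasurable (fun y : E3 => (‖x - y‖)⁻¹) volume := by
    have : Measurable (fun y : E3 => ‖x - y‖) := (measurable_id.const_sub x).norm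
    exact this.inv.aestronglyMeasurable
  exact (integrable_sq hu).1.mul h1

theorem hb (hH : T_hardy) : T_hb := by
  intro u G hu
  have hsq := integrable_sq hu.memLp
  have hH' : ∀ x : E3, Integrable (fun y => ‖u y‖ ^ 2 / ‖x - y‖ ^ 2) ∧
      ∫ y, ‖u y‖ ^ 2 / ‖x - y‖ ^ 2 ≤ 4 * ∫ y, g2 G y := by
    intro x
    have := hH u G hu x
    have e : (fun y => ‖u y‖ ^ 2 / ‖x - y‖ ^ 2) = fun y => ‖u y‖ ^ 2 / ‖y - x‖ ^ 2 := by
      ext y
      rw [norm_sub_rev]
    rw [e]
    exact this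
  have hK0 : 0 ≤ ∫ y, g2 G y := integral_nonneg fun x => by
    unfold g2
    exact Finset.sum_nonneg fun i _ => by positivity
  have hM0 : 0 ≤ mass u := integral_nonneg fun x => by positivity
  have hint : ∀ x : E3, Integrable (fun y => ‖u y‖ ^ 2 / ‖x - y‖) := by
    intro x
    refine (((hH' x).1.const_mul (1 / 4)).add hsq).mono' (aesm_div hu.memLp x) ?_
    refine Eventually.of_forall fun y => ?_
    rw [Real.norm_eq_abs, abs_of_nonneg (by positivity)]
    have := div_le_sq (A := ‖u y‖ ^ 2) (d := ‖x - y‖) (t := 1 / 4) (by positivity)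
      (by positivity) (by norm_num)
    simpa using this
  have hnn : ∀ x, 0 ≤ hartree u x := fun x => integral_nonneg fun y => by positivity
  have htail : ∀ δ, 0 < δ → ∃ n : ℕ, mass u - δ < ∫ y in Metric.closedBall (0 : E3) n, ‖u y‖ ^ 2 := by
    intro δ hδ
    have h1 := (aecover_closedBall (μ := (volume : Measure E3)) (x := (0 : E3))
      tendsto_natCast_atTop_atTop).integral_tendsto_of_countably_generated hsq
    have h2 := h1.eventually (lt_mem_nhds (show mass u - δ < ∫ y, ‖u y‖ ^ 2 by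
      unfold mass; linarith))
    exact h2.exists
  refine ⟨fun x => ⟨hint x, hnn x, ?_⟩, ?_, ?_, ?_⟩
  · have h1 : hartree u x ≤ ∫ y, (1 / 4 * (‖u y‖ ^ 2 / ‖x - y‖ ^ 2) + ‖u y‖ ^ 2) := by
      refine integral_mono (hint x) (((hH' x).1.const_mul (1 / 4)).add hsq) fun y => ?_
      have := div_le_sq (A := ‖u y‖ ^ 2) (d := ‖x - y‖) (t := 1 / 4) (by positivity)
        (by positivity) (by norm_num)
      simpa using this
    rw [integral_add ((hH' x).1.const_mul (1 / 4)) hsq, integral_const_mul] at h1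
    have h2 := (hH' x).2
    unfold mass
    linarith
  · intro x x'
    have h1 : hartree u x - hartree u x' =
        ∫ y, (‖u y‖ ^ 2 / ‖x - y‖ - ‖u y‖ ^ 2 / ‖x' - y‖) :=
      (integral_sub (hint x) (hint x')).symm
    rw [h1]
    have h2 : ∀ᵐ y, |‖u y‖ ^ 2 / ‖x - y‖ - ‖u y‖ ^ 2 / ‖x' - y‖| ≤
        ‖x - x'‖ / 2 * (‖u y‖ ^ 2 / ‖x - y‖ ^ 2 + ‖u y‖ ^ 2 / ‖x' - y‖ ^ 2) := by
      filter_upwards [ae_ne' x, ae_ne' x'] with y hy hy'
      have hd : 0 < ‖x - y‖ := norm_pos_iff.2 (sub_ne_zero.2 hy.symm)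
      have hd' : 0 < ‖x' - y‖ := norm_pos_iff.2 (sub_ne_zero.2 hy'.symm)
      have h3 : |‖x' - y‖ - ‖x - y‖| ≤ ‖x - x'‖ := by
        have := abs_norm_sub_norm_le (x' - y) (x - y)
        rw [sub_sub_sub_cancel_right, norm_sub_rev x' x] at this
        exact this
      set d := ‖x - y‖
      set d' := ‖x' - y‖
      have e1 : ‖u y‖ ^ 2 / d - ‖u y‖ ^ 2 / d' = ‖u y‖ ^ 2 * (d' - d) / (d * d') := by
        field_simp
      rw [e1, abs_div, abs_mul, abs_of_nonneg (by positivity : 0 ≤ ‖u y‖ ^ 2),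
        abs_of_pos (by positivity : 0 < d * d')]
      have h4 : 1 / (d * d') ≤ 1 / 2 * (1 / d ^ 2 + 1 / d' ^ 2) := by
        have e2 : 1 / 2 * (1 / d ^ 2 + 1 / d' ^ 2) - 1 / (d * d') = 1 / 2 * (1 / d - 1 / d') ^ 2 := by
          field_simp
          ring
        have : 0 ≤ 1 / 2 * (1 / d - 1 / d') ^ 2 := by positivity
        linarith
      calc ‖u y‖ ^ 2 * |d' - d| / (d * d') = ‖u y‖ ^ 2 * |d' - d| * (1 / (d * d')) := by ring
        _ ≤ ‖u y‖ ^ 2 * ‖x - x'‖ * (1 / 2 * (1 / d ^ 2 + 1 / d' ^ 2)) := by gcongr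
        _ = _ := by ring
    calc |∫ y, (‖u y‖ ^ 2 / ‖x - y‖ - ‖u y‖ ^ 2 / ‖x' - y‖)|
        ≤ ∫ y, |‖u y‖ ^ 2 / ‖x - y‖ - ‖u y‖ ^ 2 / ‖x' - y‖| := abs_integral_le_integral_abs
      _ ≤ ∫ y, ‖x - x'‖ / 2 * (‖u y‖ ^ 2 / ‖x - y‖ ^ 2 + ‖u y‖ ^ 2 / ‖x' - y‖ ^ 2) :=
          integral_mono_ae ((hint x).sub (hint x')).abs
            (((hH' x).1.add (hH' x').1).const_mul _) h2
      _ = ‖x - x'‖ / 2 * ((∫ y, ‖u y‖ ^ 2 / ‖x - y‖ ^ 2) + ∫ y, ‖u y‖ ^ 2 / ‖x' - y‖ ^ 2) := by
          rw [integral_const_mul, integral_add (hH' x).1 (hH' x').1]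
      _ ≤ ‖x - x'‖ / 2 * (4 * (∫ y, g2 G y) + 4 * ∫ y, g2 G y) := by
          have := (hH' x).2
          have := (hH' x').2
          gcongr
      _ = _ := by ring
  · intro ε hε
    set K := ∫ y, g2 G y with hK
    set t : ℝ := ε / (12 * (K + 1)) with ht
    have ht0 : 0 < t := by positivity
    obtain ⟨n, hn⟩ := htail (4 * t * (ε / 3)) (by positivity)
    set R : ℝ := n + (3 * (mass u + 1)) / ε with hR
    have hRn : 0 < R - n := by
      have : 0 < (3 * (mass u + 1)) / ε := by positivity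
      linarith
    refine ⟨R, by positivity, fun x hx => ?_⟩
    have hin : Integrable ((Metric.closedBall (0 : E3) n)ᶜ.indicator fun y => ‖u y‖ ^ 2) :=
      hsq.indicator measurableSet_closedBall.compl
    have h1 : hartree u x ≤ ∫ y, (t * (‖u y‖ ^ 2 / ‖x - y‖ ^ 2) +
        1 / (4 * t) * ((Metric.closedBall (0 : E3) n)ᶜ.indicator (fun y => ‖u y‖ ^ 2) y) +
        1 / (R - n) * ‖u y‖ ^ 2) := by
      refine integral_mono (hint x) ((((hH' x).1.const_mul t).add (hin.const_mul _)).add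
        (hsq.const_mul _)) fun y => ?_
      show ‖u y‖ ^ 2 / ‖x - y‖ ≤ t * (‖u y‖ ^ 2 / ‖x - y‖ ^ 2) +
        1 / (4 * t) * ((Metric.closedBall (0 : E3) n)ᶜ.indicator (fun y => ‖u y‖ ^ 2) y) +
        1 / (R - n) * ‖u y‖ ^ 2
      by_cases hy : y ∈ Metric.closedBall (0 : E3) n
      · rw [indicator_of_notMem (by simpa using hy)]
        have h2 : R - n ≤ ‖x - y‖ := by
          have h3 : ‖y‖ ≤ n := by simpa using hy
          have h4 := norm_sub_norm_le x y
          linarith
        have h5 : ‖u y‖ ^ 2 / ‖x - y‖ ≤ 1 / (R - n) * ‖u y‖ ^ 2 := by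
          rw [one_div, inv_mul_eq_div]
          gcongr
        have h6 : 0 ≤ t * (‖u y‖ ^ 2 / ‖x - y‖ ^ 2) := by positivity
        linarith
      · rw [indicator_of_mem (by simpa using hy)]
        have h2 := div_le_sq (A := ‖u y‖ ^ 2) (d := ‖x - y‖) (by positivity) (by positivity) ht0
        have h3 : ‖u y‖ ^ 2 / (4 * t) = 1 / (4 * t) * ‖u y‖ ^ 2 := by ring
        have h4 : 0 ≤ 1 / (R - n) * ‖u y‖ ^ 2 := by positivity
        linarith
    have i12 : Integrable (fun y => t * (‖u y‖ ^ 2 / ‖x - y‖ ^ 2) +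
        1 / (4 * t) * ((Metric.closedBall (0 : E3) n)ᶜ.indicator (fun y => ‖u y‖ ^ 2) y)) :=
      ((hH' x).1.const_mul t).add (hin.const_mul _)
    rw [integral_add i12 (hsq.const_mul _),
      integral_add ((hH' x).1.const_mul t) (hin.const_mul _), integral_const_mul,
      integral_const_mul, integral_const_mul, integral_indicator measurableSet_closedBall.compl] at h1
    have h2 := integral_add_compl (measurableSet_closedBall (x := (0 : E3)) (ε := (n : ℝ))) hsq
    have h3 : ∫ y in (Metric.closedBall (0 : E3) n)ᶜ, ‖u y‖ ^ 2 ≤ 4 * t * (ε / 3) := by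
      have : mass u = ∫ y, ‖u y‖ ^ 2 := rfl
      linarith
    have h4 : t * (∫ y, ‖u y‖ ^ 2 / ‖x - y‖ ^ 2) ≤ ε / 3 := by
      calc t * (∫ y, ‖u y‖ ^ 2 / ‖x - y‖ ^ 2) ≤ t * (4 * K) := by
            gcongr
            exact (hH' x).2
        _ = ε / 3 * (K / (K + 1)) := by
            rw [ht]; field_simp; ring
        _ ≤ ε / 3 * 1 := by
            gcongr
            rw [div_le_one (by positivity)]
            linarith
        _ = ε / 3 := by ring
    have h5 : 1 / (4 * t) * ∫ y in (Metric.closedBall (0 : E3) n)ᶜ, ‖u y‖ ^ 2 ≤ ε / 3 := by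
      calc 1 / (4 * t) * ∫ y in (Metric.closedBall (0 : E3) n)ᶜ, ‖u y‖ ^ 2
          ≤ 1 / (4 * t) * (4 * t * (ε / 3)) := by gcongr
        _ = ε / 3 := by field_simp
    have h6 : 1 / (R - n) * ∫ y, ‖u y‖ ^ 2 ≤ ε / 3 := by
      have e : R - n = 3 * (mass u + 1) / ε := by rw [hR]; ring
      rw [e]
      change 1 / (3 * (mass u + 1) / ε) * mass u ≤ ε / 3
      have e2 : 1 / (3 * (mass u + 1) / ε) * mass u = ε / 3 * (mass u / (mass u + 1)) := by
        field_simp
      rw [e2]
      calc ε / 3 * (mass u / (mass u + 1)) ≤ ε / 3 * 1 := by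
            gcongr
            rw [div_le_one (by positivity)]
            linarith
        _ = ε / 3 := by ring
    linarith
  · intro m hm
    by_cases hm0 : m ≤ 0
    · refine ⟨1, one_pos, fun x hx => ?_⟩
      exact (div_nonpos_of_nonpos_of_nonneg hm0 (norm_nonneg _)).trans (hnn x)
    · have hm0 : 0 < m := not_le.1 hm0
      obtain ⟨n, hn⟩ := htail ((mass u - m) / 2) (by linarith)
      set m' := mass u - (mass u - m) / 2 with hm'
      have hmm : 0 < m' - m := by rw [hm']; linarith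
      refine ⟨m * n / (m' - m) + 1, by positivity, fun x hx => ?_⟩
      have hx0 : 0 < ‖x‖ := by
        have : 0 ≤ m * n / (m' - m) := by positivity
        linarith
      have h1 : (1 / (‖x‖ + n)) * ∫ y in Metric.closedBall (0 : E3) n, ‖u y‖ ^ 2 ≤ hartree u x := by
        rw [← integral_const_mul]
        calc ∫ y in Metric.closedBall (0 : E3) n, 1 / (‖x‖ + n) * ‖u y‖ ^ 2
            ≤ ∫ y in Metric.closedBall (0 : E3) n, ‖u y‖ ^ 2 / ‖x - y‖ := by
              refine setIntegral_mono_ae_restrict (hsq.const_mul _).integrableOn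
                (hint x).integrableOn ?_
              rw [EventuallyLE, ae_restrict_iff' measurableSet_closedBall]
              filter_upwards [ae_ne' x] with y hy hyb
              have hd : 0 < ‖x - y‖ := norm_pos_iff.2 (sub_ne_zero.2 hy.symm)
              have h3 : ‖y‖ ≤ n := by simpa using hyb
              have h4 : ‖x - y‖ ≤ ‖x‖ + n := by
                have := norm_sub_le x y
                linarith
              rw [one_div, inv_mul_eq_div]
              gcongr
          _ ≤ ∫ y, ‖u y‖ ^ 2 / ‖x - y‖ :=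
              setIntegral_le_integral (hint x) (Eventually.of_forall fun y => by
                show 0 ≤ ‖u y‖ ^ 2 / ‖x - y‖
                positivity)
      have h2 : m / ‖x‖ ≤ 1 / (‖x‖ + n) * m' := by
        rw [one_div, inv_mul_eq_div, div_le_div_iff₀ hx0 (by positivity)]
        have h5 : m * n ≤ (m' - m) * ‖x‖ := by
          have h6 : m * n / (m' - m) ≤ ‖x‖ := by linarith
          rw [div_le_iff₀ hmm] at h6
          linarith
        nlinarith
      refine h2.trans (le_trans ?_ h1)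
      gcongr

end Pool.Agent.H76.HN
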